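import Mathlib
import Pool.Agent.SHAN.Defs

set_option autoImplicit false

/-!
Groups used in the table of automorphism groups.
-/

namespace Pool.Agent.SHAJ

/-- the cyclic group of order `n` (for `n ≠ 0`) -/
abbrev Cy (n : ℕ) : Type := Multiplicative (ZMod n)

/-- the holomorph of a group: the semidirect product of the group and its automorphism group -/
abbrev Hol (N : Type) [Group N] : Type := N ⋊[MonoidHom.id (MulAut N)] MulAut N

/-- nonabelian -/
def NonAb (G : Type) [Group G] : Prop := ∃ a b : G, a * b ≠ b * a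

/-- the parameters of the groups of `MetaList` whose automorphism group is the holomorph of the
group of order `q` -/
def PA (c d : ℕ) : Prop := c = 1 ∨ (c = 2 ∧ d % 2 = 1)

/-- the other parameters of the groups of `MetaList` -/
def PB (q c d : ℕ) : Prop :=
  (c = 2 ∧ d % 2 = 0 ∧ (q = 3 ∨ q = 5 ∨ q = 7)) ∨ (q = 7 ∧ c = 4 ∧ d = 3) ∨ (q = 5 ∧ c = 3) ∨
    (q = 7 ∧ c = 3 ∧ d = 2)

end Pool.Agent.SHAJ
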