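import Mathlib
import Pool.Agent.SHAJ.Defs

set_option autoImplicit false

/-!
The implications that describe closure under automorphism groups within the list.
-/

namespace Pool.Agent.SHAJ

/-- the implications for abelian groups: with the cyclic group of order `n` the class contains the
group of units modulo `n`, with `C2 × C2` the symmetric group of degree 3, with `C2 × C4` the
dihedral group of order 8, and with `C2 × C6` the dihedral group of order 12 -/
def ImplAb (K : (G : Type) → [Group G] → Prop) : Prop :=
  (∀ n : ℕ, n ≠ 0 → K (Cy n) → K (ZMod n)ˣ) ∧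
  (K (Multiplicative (ZMod 2 × ZMod 2)) → K (Equiv.Perm (Fin 3))) ∧
  (K (Multiplicative (ZMod 2 × ZMod 4)) → K (DihedralGroup 4)) ∧
  (K (Multiplicative (ZMod 2 × ZMod 6)) → K (DihedralGroup 6))

/-- with the alternating group of degree 4 or the quaternion group of order 8 the class contains the
symmetric group of degree 4, and with the alternating group of degree 5 the symmetric group of
degree 5 -/
def ImplSym (K : (G : Type) → [Group G] → Prop) : Prop :=
  (K (alternatingGroup (Fin 4)) → K (Equiv.Perm (Fin 4))) ∧
  (K (QuaternionGroup 2) → K (Equiv.Perm (Fin 4))) ∧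
  (K (alternatingGroup (Fin 5)) → K (Equiv.Perm (Fin 5)))

/-- with a nonabelian subgroup of the holomorph of a group of prime order the class contains the
whole holomorph -/
def ImplHol (K : (G : Type) → [Group G] → Prop) : Prop :=
  ∀ q : ℕ, q.Prime → ∀ A : Subgroup (Hol (Cy q)), NonAb A → K A → K (Hol (Cy q))

/-- the class contains the dihedral group of order `4 * q` or the dicyclic group of order `4 * q` or
the direct product of a group of order 3 and the dihedral group of order `2 * q`, or `q = 7` and
it contains the direct product of the cyclic group of order 4 and a nonabelian subgroup of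
the holomorph of the group of order 7 -/
def HasX (K : (G : Type) → [Group G] → Prop) (q : ℕ) : Prop :=
  K (DihedralGroup (2 * q)) ∨ K (QuaternionGroup q) ∨ K (Cy 3 × DihedralGroup q) ∨
    (q = 7 ∧ ∃ A : Subgroup (Hol (Cy 7)), NonAb A ∧ K (Cy 4 × A))

/-- Closure of a class of groups of the list under automorphism groups, made explicit. -/
def Impl (K : (G : Type) → [Group G] → Prop) : Prop :=
  ImplAb K ∧ ImplSym K ∧ ImplHol K ∧
    ∀ q : ℕ, q = 3 ∨ q = 5 ∨ q = 7 → HasX K q → K (Hol (Cy q) × Cy 2)

end Pool.Agent.SHAJ
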