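import Mathlib
import Pool.Agent.SHAJ.Defs
import Pool.Agent.SHAF.ListAut3

set_option autoImplicit false

/-!
Metacyclic-type groups: embedding of the automorphism group (module META).
-/

namespace Pool.Agent.SHAJ

open Pool.Agent.SHAF

/-- the data of a group of `MetaList` -/
def MData (G : Type) [Group G] (q c d : ℕ) (N H : Subgroup G) : Prop :=
  q.Prime ∧ N.Normal ∧ Nat.card N = q ∧ N.IsComplement' H ∧
    (∀ x ∈ H, ∀ y ∈ H, x * y = y * x) ∧
    Nat.card (H ⊓ Subgroup.centralizer (N : Set G) : Subgroup G) = c ∧ Nat.card H = c * d ∧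
    1 < d ∧ Params q c d ∧ (c = 4 → IsCyclic H)

private theorem metaA_core {G : Type} [Group G] {q c d : ℕ} {N H : Subgroup G}
    (h : MData G q c d N H) :
    ∃ (f : MulAut G →* Hol (Cy q)) (T : MulAut G → Prop),
      (∀ α, T α → f α = 1 → α = 1) ∧ T 1 ∧ (∀ α β, T α → T β → T (α * β)) ∧
      (∀ α, T α → T α⁻¹) ∧ (∀ α β, ¬ T α → ¬ T β → T (α * β)) ∧ (PA c d → ∀ α, T α) := by
  classical
  obtain ⟨hq, hN, hNc, hcompl, hH, hHC, hHc, hd, hP, h4⟩ := h
  obtain ⟨p, hpk, hps⟩ := compl_proj N H hcompl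
  have hc0 : 0 < c := by
    have := params_c hP
    omega
  have h1 := compl_card hq N H hNc hcompl
  rw [hHC, hHc] at h1
  have hDi : (Subgroup.centralizer (N : Set G)).index = d := Nat.eq_of_mul_eq_mul_left hc0 h1
  have hGc : Nat.card G = q * c * d := by
    rw [← hcompl.card_mul_card, hNc, hHc, mul_assoc]
  haveI : Finite G := Nat.finite_of_card_ne_zero (by
    rw [hGc]
    exact Nat.mul_ne_zero (Nat.mul_ne_zero hq.ne_zero (by omega)) (by omega))
  haveI : Fact q.Prime := ⟨hq⟩
  haveI : NeZero q := ⟨hq.ne_zero⟩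
  obtain ⟨hAc, hAn⟩ := mulAut_prime_cyc hq hNc
  have hdq : d ∣ q - 1 := hDi ▸ idx_dvd hq N hNc
  have hqcd : ¬ q ∣ c * d := by
    intro h
    rcases (Nat.Prime.dvd_mul hq).mp h with h | h
    · exact params_coprime hP hq h
    · have h2 := hq.two_le
      have := Nat.le_of_dvd (by omega) (h.trans hdq)
      omega
  have hab : ∀ a ∈ N, ∀ b ∈ N, a * b = b * a := fun a ha b hb =>
    (Subgroup.mem_centralizer_iff.mp (cent_le hq N hNc hb)) a ha
  have hpN : ∀ g, p g = 1 ↔ g ∈ N := by
    intro g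
    rw [← hpk, MonoidHom.mem_ker]
  -- N is characteristic
  have hchar : ∀ (α : MulAut G), ∀ n ∈ N, α n ∈ N := by
    intro α n hn
    rw [← hpN]
    have h5 : orderOf (p (α n)) ∣ q := by
      have h6 : orderOf (α n) ∣ q := by
        have : orderOf (α n) = orderOf n := orderOf_injective α.toMonoidHom α.injective n
        rw [this, ← hNc]
        exact Subgroup.orderOf_dvd_natCard N hn
      exact (orderOf_map_dvd p _).trans h6
    have h6 : orderOf (p (α n)) ∣ c * d := hHc ▸ orderOf_dvd_natCard _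
    rw [← orderOf_eq_one_iff]
    exact Nat.Coprime.eq_one_of_dvd
      (((Nat.Prime.coprime_iff_not_dvd hq).mpr hqcd).coprime_dvd_left h5) h6
  have hchar' : ∀ (α : MulAut G) (g : G), α g ∈ N → g ∈ N := by
    intro α g hg
    have h5 := hchar α.symm _ hg
    rwa [MulEquiv.symm_apply_apply] at h5
  have hrep : ∀ g : G, ∃ x : H, ∃ n ∈ N, g = n * x := by
    intro g
    obtain ⟨⟨n, x⟩, hnx⟩ := hcompl.2 g
    exact ⟨x, n, n.2, hnx.symm⟩
  have huniq : ∀ n ∈ N, ∀ x ∈ H, ∀ n' ∈ N, ∀ x' ∈ H, n * x = n' * x' → n = n' := by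
    intro n hn x hx n' hn' x' hx' he
    have h5 : n'⁻¹ * n = x' * x⁻¹ := by
      have h6 : n = n' * x' * x⁻¹ := by rw [← he, mul_inv_cancel_right]
      rw [h6]
      group
    have h6 : n'⁻¹ * n ∈ H := by
      rw [h5]
      exact H.mul_mem hx' (H.inv_mem hx)
    have h7 := (Subgroup.disjoint_def.mp hcompl.disjoint) (N.mul_mem (N.inv_mem hn') hn) h6
    exact (inv_mul_eq_one.mp h7).symm
  -- an element of `H` outside the centraliser
  obtain ⟨h0, hh0H, hh0⟩ : ∃ h0 ∈ H, h0 ∉ Subgroup.centralizer (N : Set G) := by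
    by_contra hcon
    push Not at hcon
    have h5 : Subgroup.centralizer (N : Set G) = ⊤ := by
      rw [Subgroup.eq_top_iff']
      intro g
      obtain ⟨x, n, hn, rfl⟩ := hrep g
      exact (Subgroup.centralizer (N : Set G)).mul_mem (cent_le hq N hNc hn) (hcon x x.2)
    rw [h5, Subgroup.index_top] at hDi
    omega
  have hx : ∀ n ∈ N, h0 * n = n * h0 → n = 1 := by
    intro n hn hn1
    by_contra hne
    apply hh0
    have h5 : N ≤ Subgroup.centralizer {h0} := by
      have h6 : Subgroup.zpowers n = N := by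
        apply Subgroup.eq_of_le_of_card_ge (by rwa [Subgroup.zpowers_le])
        rw [Nat.card_zpowers, hNc]
        have h7 := Subgroup.orderOf_dvd_natCard N hn
        rw [hNc] at h7
        rcases (Nat.dvd_prime hq).mp h7 with h8 | h8
        · exact absurd (orderOf_eq_one_iff.mp h8) hne
        · exact h8.ge
      rw [← h6, Subgroup.zpowers_le, Subgroup.mem_centralizer_singleton_iff]
      exact hn1.symm
    rw [Subgroup.mem_centralizer_iff]
    intro y hy
    exact Subgroup.mem_centralizer_singleton_iff.mp (h5 hy)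
  -- restriction to N
  let ρ : MulAut G →* MulAut N :=
    { toFun := fun α =>
        { toFun := fun n => ⟨α n, hchar α n n.2⟩
          invFun := fun n => ⟨α.symm n, hchar α.symm n n.2⟩
          left_inv := fun n => by simp
          right_inv := fun n => by simp
          map_mul' := fun a b => Subtype.ext (by simp) }
      map_one' := rfl
      map_mul' := fun _ _ => rfl }
  have hρ : ∀ (α : MulAut G) (n : N), ((ρ α n : N) : G) = α n := fun _ _ => rfl
  have hcomA : ∀ a b : MulAut N, a * b = b * a := by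
    letI := IsCyclic.commGroup (α := MulAut N)
    exact fun a b => mul_comm a b
  -- automorphisms commute with the action on `N`
  let κ : G →* MulAut N := MulAut.conjNormal
  have hκ : ∀ (g : G) (n : N), ((κ g n : N) : G) = g * n * g⁻¹ := fun g n =>
    MulAut.conjNormal_apply g n
  have hκα : ∀ (α : MulAut G) (g : G), κ (α g) = κ g := by
    intro α g
    have h5 : κ (α g) * ρ α = ρ α * κ g := by
      ext n
      rw [MulAut.mul_apply, MulAut.mul_apply, hκ, hρ, hρ, hκ, map_mul, map_mul, map_inv]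
    rw [hcomA (ρ α)] at h5
    exact mul_right_cancel h5
  have hCall : ∀ (α : MulAut G) (g : G), α g * g⁻¹ ∈ Subgroup.centralizer (N : Set G) := by
    intro α g
    rw [cent_eq_ker, MonoidHom.mem_ker, map_mul, map_inv]
    change κ (α g) * (κ g)⁻¹ = 1
    rw [hκα, mul_inv_cancel]
  -- the centre
  have hcen : ∀ z ∈ H, z ∈ Subgroup.centralizer (N : Set G) → ∀ g : G, g * z = z * g := by
    intro z hz hzc g
    obtain ⟨x, n, hn, rfl⟩ := hrep g
    have h5 : n * z = z * n := (Subgroup.mem_centralizer_iff.mp hzc) n hn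
    have h6 : (x : G) * z = z * x := hH _ x.2 _ hz
    rw [mul_assoc, h6, ← mul_assoc, h5, mul_assoc]
  have hcenα : ∀ (α : MulAut G), ∀ z ∈ H, z ∈ Subgroup.centralizer (N : Set G) →
      α z ∈ H ∧ ∀ g : G, g * α z = α z * g := by
    intro α z hz hzc
    have h5 : ∀ g : G, g * α z = α z * g := by
      intro g
      have h6 := congrArg α (hcen z hz hzc (α.symm g))
      rwa [map_mul, map_mul, MulEquiv.apply_symm_apply] at h6
    refine ⟨?_, h5⟩
    obtain ⟨y, n, hn, hny⟩ := hrep (α z)
    have h6 := h5 h0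
    rw [hny] at h6
    have h7 : h0 * n * (y : G) = n * h0 * y := by
      rw [mul_assoc, h6, mul_assoc n h0, hH h0 hh0H y y.2, mul_assoc]
    have h8 := hx n hn (mul_right_cancel h7)
    rw [hny, h8, one_mul]
    exact y.2
  -- the cocycle
  have hb : ∀ α : MulAut G, ∃ n : N, ∃ x : H, α h0 = n * x := by
    intro α
    obtain ⟨x, n, hn, he⟩ := hrep (α h0)
    exact ⟨⟨n, hn⟩, x, he⟩
  choose b y hby using hb
  have hyC : ∀ α, (y α : G) * h0⁻¹ ∈ Subgroup.centralizer (N : Set G) := by
    intro α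
    have h5 := hCall α h0
    rw [hby α] at h5
    have h6 := (Subgroup.centralizer (N : Set G)).mul_mem
      ((Subgroup.centralizer (N : Set G)).inv_mem (cent_le hq N hNc (b α).2)) h5
    have h7 : ((b α : G))⁻¹ * (b α * y α * h0⁻¹) = y α * h0⁻¹ := by group
    rwa [h7] at h6
  have hbmul : ∀ α β : MulAut G, b (α * β) = b α * ρ α (b β) := by
    intro α β
    apply Subtype.ext
    rw [Subgroup.coe_mul, hρ]
    have hzH : (y β : G) * h0⁻¹ ∈ H := H.mul_mem (y β).2 (H.inv_mem hh0H)
    obtain ⟨h5, h6⟩ := hcenα α _ hzH (hyC β)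
    refine huniq _ (b (α * β)).2 _ (y (α * β)).2 _
      (N.mul_mem (b α).2 (hchar α _ (b β).2)) (α ((y β : G) * h0⁻¹) * y α)
      (H.mul_mem h5 (y α).2) ?_
    rw [← hby (α * β), MulAut.mul_apply, hby β]
    have h7 : (y β : G) = y β * h0⁻¹ * h0 := by group
    rw [map_mul]
    conv_lhs => rw [h7, map_mul, hby α]
    rw [hab _ (b α).2 _ (hchar α _ (b β).2)]
    rw [← mul_assoc (α ((y β : G) * h0⁻¹)) (b α : G), ← h6]
    simp only [mul_assoc]
  -- transport to the group `Cy q`
  haveI hNcyc : IsCyclic N := isCyclic_of_prime_card hNc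
  have hcard : Nat.card N = Nat.card (Cy q) := by
    rw [hNc, Nat.card_congr (Multiplicative.toAdd (α := ZMod q)), Nat.card_zmod]
  let e : N ≃* Cy q := mulEquivOfCyclicCardEq hcard
  let σ : MulAut N →* MulAut (Cy q) := (MulAut.congr e).toMonoidHom
  have hσ : ∀ (a : MulAut N) (n : N), σ a (e n) = e (a n) := by
    intro a n
    change e (a (e.symm (e n))) = e (a n)
    rw [MulEquiv.symm_apply_apply]
  have hσ1 : ∀ a : MulAut N, σ a = 1 → a = 1 := by
    intro a ha
    exact (MulEquiv.map_eq_one_iff (MulAut.congr e)).mp ha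
  let f : MulAut G →* Hol (Cy q) := MonoidHom.mk'
    (fun α => ⟨e (b α), σ (ρ α)⟩) (by
      intro α β
      apply SemidirectProduct.ext
      · rw [SemidirectProduct.mul_left]
        change e (b (α * β)) = e (b α) * σ (ρ α) (e (b β))
        rw [hσ, ← map_mul, hbmul]
      · rw [SemidirectProduct.mul_right]
        change σ (ρ (α * β)) = σ (ρ α) * σ (ρ β)
        rw [map_mul, map_mul])
  -- the induced maps on `H`
  letI hcg : CommGroup H := { (inferInstance : Group H) with
    mul_comm := fun x y => Subtype.ext (hH x x.2 y y.2) }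
  let bar : MulAut G → (H →* H) := fun α => (p.comp α.toMonoidHom).comp H.subtype
  have hpn : ∀ n ∈ N, p n = 1 := fun n hn => (hpN n).mpr hn
  have hpgen : ∀ x : H, ∀ y : H, p (x : G) = p (y : G) → x = y := by
    intro x y hxy
    have h5 : (x : G) * (y : G)⁻¹ ∈ N := by
      rw [← hpN, map_mul, map_inv, hxy, mul_inv_cancel]
    have h6 := (Subgroup.disjoint_def.mp hcompl.disjoint) h5 (H.mul_mem x.2 (H.inv_mem y.2))
    exact Subtype.ext (mul_inv_eq_one.mp h6)
  let pH : H →* H := p.comp H.subtype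
  have hpHinj : Function.Injective pH := fun x y hxy => hpgen x y hxy
  have hpHsurj : Function.Surjective pH := Finite.injective_iff_surjective.mp hpHinj
  set C : Subgroup H := (Subgroup.centralizer (N : Set G)).subgroupOf H with hCdef
  set C' : Subgroup H := C.map pH with hC'def
  have hCc : Nat.card C' = c := by
    rw [hC'def, ← Nat.card_congr (C.equivMapOfInjective pH hpHinj).toEquiv, ← hHC, inf_comm,
      ← Subgroup.subgroupOf_map_subtype]
    exact Nat.card_congr (Subgroup.equivMapOfInjective _ _ H.subtype_injective).toEquiv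
  have hpD : ∀ g ∈ Subgroup.centralizer (N : Set G), p g ∈ C' := by
    intro g hg
    obtain ⟨x, n, hn, rfl⟩ := hrep g
    rw [map_mul, hpn n hn, one_mul]
    refine ⟨x, ?_, rfl⟩
    rw [hCdef]
    change (x : G) ∈ Subgroup.centralizer (N : Set G)
    have h5 := (Subgroup.centralizer (N : Set G)).mul_mem
      ((Subgroup.centralizer (N : Set G)).inv_mem (cent_le hq N hNc hn)) hg
    rwa [inv_mul_cancel_left] at h5
  have hind : ∀ α : MulAut G, ∃ ζ : H →* H, (∀ g, ζ (p g) = p (α g)) ∧ Function.Injective ζ := by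
    intro α
    let ePH := MulEquiv.ofBijective pH ⟨hpHinj, hpHsurj⟩
    refine ⟨(bar α).comp ePH.symm.toMonoidHom, ?_, ?_⟩
    · intro g
      obtain ⟨x, n, hn, rfl⟩ := hrep g
      have h5 : p (n * x) = ePH x := by
        rw [map_mul, hpn n hn, one_mul]
        rfl
      rw [h5]
      change p (α ((ePH.symm (ePH x) : H) : G)) = _
      rw [MulEquiv.symm_apply_apply, map_mul α, map_mul p, hpn _ (hchar α n hn), one_mul]
    · rw [injective_iff_map_eq_one]
      intro y hy
      obtain ⟨x, rfl⟩ := ePH.surjective y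
      have h5 : p (α (x : G)) = 1 := by
        have h6 : p (α ((ePH.symm (ePH x) : H) : G)) = 1 := hy
        rwa [MulEquiv.symm_apply_apply] at h6
      rw [hpN] at h5
      have h6 : (x : G) ∈ N := hchar' α _ h5
      have h7 := (Subgroup.disjoint_def.mp hcompl.disjoint) h6 x.2
      have h8 : x = 1 := Subtype.ext h7
      rw [h8, map_one]
  have hζC : ∀ α : MulAut G, ∀ ζ : H →* H, (∀ g, ζ (p g) = p (α g)) → ∀ m, ζ m * m⁻¹ ∈ C' := by
    intro α ζ hζ m
    obtain ⟨g, rfl⟩ := hps m
    rw [hζ, ← map_inv, ← map_mul]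
    exact hpD _ (hCall α g)
  have hdC : ∀ m : H, m ^ d ∈ C' := by
    intro m
    obtain ⟨g, rfl⟩ := hps m
    rw [← map_pow]
    apply hpD
    rw [← hDi]
    exact Subgroup.pow_index_mem _ g
  have hne : ∀ α : MulAut G, ∀ ζ : H →* H, (∀ g, ζ (p g) = p (α g)) →
      ¬ (∀ g, p (α g) = p g) → ∃ m, ζ m ≠ m := by
    intro α ζ hζ hαn
    by_contra hcon
    push Not at hcon
    exact hαn (fun g => by rw [← hζ, hcon])
  have htriv : PA c d → ∀ (α : MulAut G) (g : G), p (α g) = p g := by
    intro h5 α g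
    obtain ⟨ζ, hζ, hζi⟩ := hind α
    rw [← hζ]
    exact gam_triv C' hdC ζ hζi (hζC α ζ hζ) (by rw [hCc]; exact h5) _
  have htwo : c = 2 → ∀ α β : MulAut G, ¬ (∀ g, p (α g) = p g) → ¬ (∀ g, p (β g) = p g) →
      ∀ g, p (α (β g)) = p g := by
    intro h5 α β hαn hβn g
    obtain ⟨ζ, hζ, hζi⟩ := hind α
    obtain ⟨ξ, hξ, hξi⟩ := hind β
    obtain ⟨b, hb⟩ := IsCyclic.exists_generator (α := κ.range)
    obtain ⟨x, hx'⟩ := κ.rangeRestrict_surjective b
    have hgen : ∀ m : H, ∃ k : ℤ, m * (p x) ^ k ∈ C' := by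
      intro m
      obtain ⟨y, rfl⟩ := hps m
      obtain ⟨k, hk⟩ := Subgroup.mem_zpowers_iff.mp (hb (κ.rangeRestrict y))
      refine ⟨-k, ?_⟩
      rw [← map_zpow, ← map_mul]
      apply hpD
      rw [cent_eq_ker]
      have h6 : κ.rangeRestrict (y * x ^ (-k)) = 1 := by
        rw [map_mul, map_zpow, hx', zpow_neg, hk, mul_inv_cancel]
      exact congrArg Subtype.val h6
    rw [← hζ, ← hξ]
    exact gam_two C' (by rw [hCc, h5]) (p x) hgen ζ ξ hζi hξi (hζC α ζ hζ) (hζC β ξ hξ)
      (hne α ζ hζ hαn) (hne β ξ hξ hβn) _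
  have hthr : (c = 3 ∨ c = 4) → c.Coprime d → IsCyclic C' →
      ∀ α β : MulAut G, ¬ (∀ g, p (α g) = p g) → ¬ (∀ g, p (β g) = p g) →
      ∀ g, p (α (β g)) = p g := by
    intro h5 hcop hcyc α β hαn hβn g
    obtain ⟨ζ, hζ, hζi⟩ := hind α
    obtain ⟨ξ, hξ, hξi⟩ := hind β
    rw [← hζ, ← hξ]
    exact gam_two' C' hdC (by rw [hCc]; exact hcop) (by rw [hCc]; exact h5) hcyc ζ ξ hζi hξi
      (hζC α ζ hζ) (hζC β ξ hξ) (hne α ζ hζ hαn) (hne β ξ hξ hβn) _
  have hall : ∀ α β : MulAut G, ¬ (∀ g, p (α g) = p g) → ¬ (∀ g, p (β g) = p g) →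
      ∀ g, p (α (β g)) = p g := by
    rcases hP with ⟨rfl, h⟩ | ⟨rfl, h, hd2⟩ | ⟨rfl, h⟩ | ⟨rfl, rfl, rfl⟩ | ⟨rfl, rfl⟩ |
      ⟨rfl, rfl, rfl⟩
    · exact fun α β hα _ => absurd (htriv (Or.inl rfl) α) hα
    · exact fun α β hα _ => absurd (htriv (Or.inr ⟨rfl, hd2⟩) α) hα
    · exact htwo rfl
    · haveI := h4 rfl
      exact hthr (Or.inr rfl) (by norm_num) inferInstance
    · have h3 : IsCyclic C' := cyc_of_le3 (by rw [hCc])
      refine hthr (Or.inl rfl) ?_ h3
      exact Nat.Coprime.coprime_dvd_right hdq (by norm_num)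
    · have h3 : IsCyclic C' := cyc_of_le3 (by rw [hCc])
      exact hthr (Or.inl rfl) (by norm_num) h3
  refine ⟨f, fun α => ∀ g, p (α g) = p g, ?_, fun g => rfl, ?_, ?_, ?_, htriv⟩
  · intro α hT hf
    have h5 : e (b α) = 1 := congrArg SemidirectProduct.left hf
    have h6 : σ (ρ α) = 1 := congrArg SemidirectProduct.right hf
    have h7 : b α = 1 := (MulEquiv.map_eq_one_iff e).mp h5
    have h8 : ρ α = 1 := hσ1 _ h6
    have h9 : ∀ n ∈ N, α n = n := by
      intro n hn
      exact congrArg Subtype.val (DFunLike.congr_fun h8 ⟨n, hn⟩)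
    have h10 : α h0 = h0 := by
      have h11 := hby α
      rw [h7, Subgroup.coe_one, one_mul] at h11
      have h12 : p ((y α : H) : G) = p (((⟨h0, hh0H⟩ : H) : H) : G) := by
        rw [← h11]
        exact hT h0
      have h13 := hpgen _ _ h12
      rw [h11, h13]
    have h14 : ∀ x ∈ H, α x = x := by
      intro x hxH
      have h15 : α x * x⁻¹ ∈ N := by
        rw [← hpN, map_mul, map_inv, hT, mul_inv_cancel]
      have h16 : α x * h0 = h0 * α x := by
        have h17 := congrArg α (hH x hxH h0 hh0H)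
        rwa [map_mul, map_mul, h10] at h17
      have h17 : h0 * (α x * x⁻¹) = α x * x⁻¹ * h0 := by
        have h18 : x⁻¹ * h0 = h0 * x⁻¹ := hH _ (H.inv_mem hxH) _ hh0H
        rw [mul_assoc, h18, ← mul_assoc, ← mul_assoc, h16]
      exact mul_inv_eq_one.mp (hx _ h15 h17)
    ext g
    obtain ⟨x, n, hn, rfl⟩ := hrep g
    rw [map_mul, h9 n hn, h14 x x.2, MulAut.one_apply]
  · intro α β hα hβ g
    rw [MulAut.mul_apply, hα, hβ]
  · intro α hα g
    have h5 := hα (α⁻¹ g)
    rw [MulAut.apply_inv_self] at h5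
    exact h5.symm
  · intro α β hα hβ g
    exact hall α β hα hβ g

theorem meta_autA {G : Type} [Group G] {q c d : ℕ} {N H : Subgroup G} (h : MData G q c d N H)
    (hP : PA c d) : ∃ f : MulAut G →* Hol (Cy q), Function.Injective f := by
  obtain ⟨f, T, h1, -, -, -, -, h6⟩ := metaA_core h
  refine ⟨f, (injective_iff_map_eq_one f).mpr (fun α hα => h1 α (h6 hP α) hα)⟩

theorem meta_autB {G : Type} [Group G] {q c d : ℕ} {N H : Subgroup G} (h : MData G q c d N H) :
    ∃ f : MulAut G →* Hol (Cy q) × Cy 2, Function.Injective f := by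
  classical
  obtain ⟨f, T, h1, h2, h3, h4, h5, -⟩ := metaA_core h
  have hne : (Multiplicative.ofAdd (1 : ZMod 2) : Cy 2) ≠ 1 := by decide
  have hsq : (Multiplicative.ofAdd (1 : ZMod 2) : Cy 2) * Multiplicative.ofAdd (1 : ZMod 2) = 1 := by
    decide
  let χ : MulAut G →* Cy 2 := MonoidHom.mk'
    (fun α => if T α then 1 else Multiplicative.ofAdd (1 : ZMod 2)) (by
      intro α β
      by_cases hα : T α
      · by_cases hβ : T β
        · rw [if_pos (h3 α β hα hβ), if_pos hα, if_pos hβ, one_mul]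
        · have h7 : ¬ T (α * β) := by
            intro h8
            have h9 := h3 _ _ (h4 α hα) h8
            rw [inv_mul_cancel_left] at h9
            exact hβ h9
          rw [if_neg h7, if_pos hα, if_neg hβ, one_mul]
      · by_cases hβ : T β
        · have h7 : ¬ T (α * β) := by
            intro h8
            have h9 := h3 _ _ h8 (h4 β hβ)
            rw [mul_inv_cancel_right] at h9
            exact hα h9
          rw [if_neg h7, if_neg hα, if_pos hβ, mul_one]
        · rw [if_pos (h5 α β hα hβ), if_neg hα, if_neg hβ, hsq])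
  refine ⟨f.prod χ, (injective_iff_map_eq_one (f.prod χ)).mpr (fun α hα => ?_)⟩
  have h7 : f α = 1 := congrArg Prod.fst hα
  have h8 : (if T α then 1 else Multiplicative.ofAdd (1 : ZMod 2) : Cy 2) = 1 :=
    congrArg Prod.snd hα
  by_cases hT : T α
  · exact h1 α hT h7
  · rw [if_neg hT] at h8
    exact absurd h8 hne

end Pool.Agent.SHAJ
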