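import Mathlib
import Pool.Agent.SHAJ.MetA
import Pool.Agent.SHAF.Two
import Pool.Agent.SHAF.MetaInt

set_option autoImplicit false

/-!
Metacyclic-type groups: images and subgroups (module METC).
-/

namespace Pool.Agent.SHAJ

open Pool.Agent.SHAF

namespace MetC

/-- Cauchy -/
lemma cauchy {G : Type} [Group G] (K : Subgroup G) (p : ℕ) (hp : p.Prime) (h0 : Nat.card K ≠ 0)
    (h : p ∣ Nat.card K) : ∃ x ∈ K, orderOf x = p := by
  have : Fact p.Prime := ⟨hp⟩
  have : Finite K := Nat.finite_of_card_ne_zero h0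
  obtain ⟨x, hx⟩ := exists_prime_orderOf_dvd_card' (G := K) p h
  exact ⟨x, x.2, by rw [← hx, Subgroup.orderOf_coe]⟩

section quat

variable {Γ : Type} [Group Γ] (q : ℕ) (r s : Γ)

lemma zpw_conj' {n : ℕ} (hr : r ^ n = 1) (hsr : s * r * s⁻¹ = r⁻¹) (a : Multiplicative (ZMod n)) :
    zpw n r hr a * s = s * zpw n r hr a⁻¹ := by
  obtain ⟨k, hk⟩ := ZMod.intCast_surjective (Multiplicative.toAdd a)
  have h1 : a = Multiplicative.ofAdd (k : ZMod n) := by rw [hk]; rfl
  have h2 : a⁻¹ = Multiplicative.ofAdd ((-k : ℤ) : ZMod n) := by rw [h1]; simp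
  rw [h2, h1, zpw_coe, zpw_coe]
  have h3 : (s * r * s⁻¹) ^ (-k) = s * r ^ (-k) * s⁻¹ := conj_zpow
  rw [hsr, inv_zpow', neg_neg] at h3
  rw [h3]
  group

/-- homomorphisms from generalised quaternion groups -/
def quatLift (hr : r ^ (2 * q) = 1) (hs : s * s = r ^ q) (hsr : s * r * s⁻¹ = r⁻¹) :
    QuaternionGroup q →* Γ :=
  MonoidHom.mk' (fun x => match x with
    | QuaternionGroup.a i => zpw (2 * q) r hr (Multiplicative.ofAdd i)
    | QuaternionGroup.xa i => s * zpw (2 * q) r hr (Multiplicative.ofAdd i)) (by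
    rintro (i | i) (j | j)
    · show zpw (2 * q) r hr (Multiplicative.ofAdd (i + j)) = _
      rw [ofAdd_add, map_mul]
    · show s * zpw (2 * q) r hr (Multiplicative.ofAdd (j - i)) =
        zpw (2 * q) r hr (Multiplicative.ofAdd i) *
        (s * zpw (2 * q) r hr (Multiplicative.ofAdd j))
      rw [← mul_assoc, zpw_conj' r s hr hsr, mul_assoc, ← map_mul]
      congr 2
      rw [sub_eq_neg_add, ofAdd_add, ofAdd_neg]
    · show s * zpw (2 * q) r hr (Multiplicative.ofAdd (i + j)) =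
        s * zpw (2 * q) r hr (Multiplicative.ofAdd i) *
        (zpw (2 * q) r hr (Multiplicative.ofAdd j))
      rw [ofAdd_add, map_mul, mul_assoc]
    · show zpw (2 * q) r hr (Multiplicative.ofAdd ((q : ZMod (2 * q)) + j - i)) =
        s * zpw (2 * q) r hr (Multiplicative.ofAdd i) *
        (s * zpw (2 * q) r hr (Multiplicative.ofAdd j))
      rw [mul_assoc s, ← mul_assoc _ s, zpw_conj' r s hr hsr, ← mul_assoc, ← mul_assoc, hs]
      have h1 : r ^ q = zpw (2 * q) r hr (Multiplicative.ofAdd ((q : ℤ) : ZMod (2 * q))) := by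
        rw [zpw_coe, zpow_natCast]
      rw [h1, ← map_mul, ← map_mul]
      congr 1
      rw [← ofAdd_neg, ← ofAdd_add, ← ofAdd_add]
      congr 1
      push_cast
      ring)

lemma quatLift_injective (hq : 1 < q) (hord : orderOf r = 2 * q) (hs : s * s = r ^ q)
    (hsr : s * r * s⁻¹ = r⁻¹) :
    Function.Injective (quatLift q r s (hord ▸ pow_orderOf_eq_one r) hs hsr) := by
  have hr : r ^ (2 * q) = 1 := hord ▸ pow_orderOf_eq_one r
  rw [injective_iff_map_eq_one]
  rintro (i | i) h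
  · have h1 : zpw (2 * q) r hr (Multiplicative.ofAdd i) = 1 := h
    have h2 := (injective_iff_map_eq_one _).mp (zpw_injective (2 * q) r hr hord) _ h1
    rw [show i = 0 from h2, QuaternionGroup.a_zero]
  · exfalso
    have h1 : s * zpw (2 * q) r hr (Multiplicative.ofAdd i) = 1 := h
    obtain ⟨k, hk⟩ := ZMod.intCast_surjective i
    rw [← hk, zpw_coe] at h1
    have h2 : s = r ^ (-k) := by rw [zpow_neg]; exact eq_inv_of_mul_eq_one_left h1
    have h3 : s * r * s⁻¹ = r := by
      rw [h2]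
      group
    rw [h3] at hsr
    have h4 : r ^ 2 = 1 := by rw [pow_two]; nth_rewrite 1 [hsr]; simp
    have h5 := orderOf_dvd_of_pow_eq_one h4
    rw [hord] at h5
    exact absurd (Nat.le_of_dvd (by norm_num) h5) (by omega)

end quat

section gen

variable {G : Type} [Group G] {q : ℕ} {N H : Subgroup G}

/-- an element whose square centralises a normal subgroup of prime order inverts it -/
lemma inverts (hq : q.Prime) [N.Normal] (hc : Nat.card N = q) {x : G}
    (h2 : ∀ n ∈ N, (x * x) * n = n * (x * x)) {m : G} (hm : m ∈ N) (hx : x * m ≠ m * x)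
    {n : G} (hn : n ∈ N) : x * n * x⁻¹ = n⁻¹ := by
  have : Fact (Nat.card N).Prime := ⟨by rw [hc]; exact hq⟩
  let F : Subgroup N := MonoidHom.eqLocus ((MulAut.conjNormal x : MulAut N).toMonoidHom)
    (MonoidHom.id N)
  have hF : F = ⊥ := by
    rcases Subgroup.eq_bot_or_eq_top_of_prime_card F with h | h
    · exact h
    · exfalso
      apply hx
      have h1 : (⟨m, hm⟩ : N) ∈ F := by
        rw [h]
        trivial
      have h3 : (MulAut.conjNormal x : MulAut N) ⟨m, hm⟩ = ⟨m, hm⟩ := h1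
      have h4 := congrArg Subtype.val h3
      rw [MulAut.conjNormal_apply] at h4
      exact mul_inv_eq_iff_eq_mul.1 h4
  have hcomm : ∀ a ∈ N, ∀ b ∈ N, a * b = b * a := fun a ha b hb =>
    ((Subgroup.mem_centralizer_iff.1 (cent_le hq N hc ha)) b hb).symm
  have hxn : x * n * x⁻¹ ∈ N := Subgroup.Normal.conj_mem inferInstance n hn x
  have h5 : (⟨n * (x * n * x⁻¹), N.mul_mem hn hxn⟩ : N) ∈ F := by
    have h6 : (MulAut.conjNormal x : MulAut N) ⟨n * (x * n * x⁻¹), N.mul_mem hn hxn⟩ =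
        ⟨n * (x * n * x⁻¹), N.mul_mem hn hxn⟩ := by
      apply Subtype.ext
      rw [MulAut.conjNormal_apply]
      change x * (n * (x * n * x⁻¹)) * x⁻¹ = n * (x * n * x⁻¹)
      calc x * (n * (x * n * x⁻¹)) * x⁻¹ = (x * n * x⁻¹) * ((x * x) * n * (x * x)⁻¹) := by group
        _ = (x * n * x⁻¹) * n := by rw [h2 n hn, mul_inv_cancel_right]
        _ = n * (x * n * x⁻¹) := hcomm _ hxn _ hn
    exact h6
  rw [hF, Subgroup.mem_bot] at h5
  have h6 := congrArg Subtype.val h5
  exact (eq_inv_of_mul_eq_one_right h6)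

/-- the map to the holomorph -/
lemma hol_map [N.Normal] (hcompl : N.IsComplement' H) (e : N ≃* Cy q) :
    ∃ F : G →* Hol (Cy q), (∀ n : N, F n = SemidirectProduct.inl (e n)) ∧
      (∀ h : H, F h = SemidirectProduct.inr (MulAut.congr e (MulAut.conjNormal (h : G)))) := by
  let E := SemidirectProduct.mulEquivSubgroup hcompl
  let φ : H →* MulAut N :=
    (N.normalizerMonoidHom).comp (Subgroup.inclusion (N.normalizer_eq_top ▸ le_top))
  have hφ : ∀ h : H, φ h = MulAut.conjNormal (h : G) := by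
    intro h
    ext n
    rw [MulAut.conjNormal_apply]
    rfl
  let g : H →* MulAut (Cy q) := (MulAut.congr e).toMonoidHom.comp φ
  let M : N ⋊[φ] H →* Hol (Cy q) := SemidirectProduct.map e.toMonoidHom g (by
    intro h
    ext n
    simp [g, MulAut.congr])
  refine ⟨M.comp E.symm.toMonoidHom, fun n => ?_, fun h => ?_⟩
  · have h1 : E (SemidirectProduct.inl n) = (n : G) := by
      simp [E, SemidirectProduct.mulEquivSubgroup, SemidirectProduct.monoidHomSubgroup]
    have h2 : E.symm (n : G) = SemidirectProduct.inl n := by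
      rw [← h1, MulEquiv.symm_apply_apply]
    change M (E.symm (n : G)) = _
    rw [h2]
    exact SemidirectProduct.map_inl _ _ _ n
  · have h1 : E (SemidirectProduct.inr h) = (h : G) := by
      simp [E, SemidirectProduct.mulEquivSubgroup, SemidirectProduct.monoidHomSubgroup]
    have h2 : E.symm (h : G) = SemidirectProduct.inr h := by
      rw [← h1, MulEquiv.symm_apply_apply]
    change M (E.symm (h : G)) = _
    rw [h2, ← hφ]
    exact SemidirectProduct.map_inr _ _ _ h

lemma cy_iso (hq : q.Prime) (hc : Nat.card N = q) : Nonempty (N ≃* Cy q) := by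
  have := prime_cyc hq N hc
  have : NeZero q := ⟨hq.ne_zero⟩
  exact ⟨mulEquivOfCyclicCardEq (by rw [hc]; simp)⟩

lemma exists_nc {c d : ℕ} (hHC : Nat.card (H ⊓ Subgroup.centralizer (N : Set G) : Subgroup G) = c)
    (hHc : Nat.card H = c * d) (hc0 : 0 < c) (hd : 1 < d) :
    ∃ h ∈ H, ∃ n ∈ N, h * n ≠ n * h := by
  by_contra hcon
  push Not at hcon
  have h1 : H ⊓ Subgroup.centralizer (N : Set G) = H :=
    inf_eq_left.2 fun h hh => Subgroup.mem_centralizer_iff.2 fun n hn => (hcon h hh n hn).symm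
  rw [h1, hHc] at hHC
  nlinarith

/-- elements of `H` and `N` commute if their images commute -/
lemma comm_of_map [N.Normal] {e : N ≃* Cy q} {F : G →* Hol (Cy q)}
    (hF1 : ∀ n : N, F n = SemidirectProduct.inl (e n))
    (hF2 : ∀ h : H, F h = SemidirectProduct.inr (MulAut.congr e (MulAut.conjNormal (h : G))))
    {h n : G} (hh : h ∈ H) (hn : n ∈ N) (hc : F h * F n = F n * F h) : h * n = n * h := by
  have h1 := hF1 ⟨n, hn⟩
  have h2 := hF2 ⟨h, hh⟩
  change F n = _ at h1
  change F h = _ at h2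
  rw [h1, h2] at hc
  have h3 := congrArg SemidirectProduct.left hc
  simp only [SemidirectProduct.mul_left, SemidirectProduct.left_inr, SemidirectProduct.right_inr,
    SemidirectProduct.left_inl, SemidirectProduct.right_inl, map_one, one_mul, mul_one,
    MonoidHom.id_apply] at h3
  have h4 : (MulAut.congr e (MulAut.conjNormal h)) (e ⟨n, hn⟩) =
      e ((MulAut.conjNormal h : MulAut N) ⟨n, hn⟩) := by
    simp [MulAut.congr]
  rw [h4] at h3
  have h5 := congrArg Subtype.val (e.injective h3)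
  rw [MulAut.conjNormal_apply] at h5
  exact mul_inv_eq_iff_eq_mul.1 h5

/-- the kernel of the map to the holomorph -/
lemma ker_map [N.Normal] {e : N ≃* Cy q} {F : G →* Hol (Cy q)}
    (hF1 : ∀ n : N, F n = SemidirectProduct.inl (e n))
    (hF2 : ∀ h : H, F h = SemidirectProduct.inr (MulAut.congr e (MulAut.conjNormal (h : G))))
    {n h : G} (hn : n ∈ N) (hh : h ∈ H) (hc : F (n * h) = 1) :
    n = 1 ∧ h ∈ Subgroup.centralizer (N : Set G) := by
  have h1 := hF1 ⟨n, hn⟩
  have h2 := hF2 ⟨h, hh⟩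
  change F n = _ at h1
  change F h = _ at h2
  rw [map_mul, h1, h2] at hc
  have h3 := congrArg SemidirectProduct.left hc
  have h4 := congrArg SemidirectProduct.right hc
  simp only [SemidirectProduct.mul_left, SemidirectProduct.mul_right, SemidirectProduct.left_inr,
    SemidirectProduct.right_inr, SemidirectProduct.one_left, SemidirectProduct.one_right,
    SemidirectProduct.left_inl, SemidirectProduct.right_inl, map_one, one_mul, mul_one,
    MonoidHom.id_apply] at h3 h4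
  have h5 : (⟨n, hn⟩ : N) = 1 := (map_eq_one_iff e e.injective).1 h3
  refine ⟨congrArg Subtype.val h5, Subgroup.mem_centralizer_iff.2 fun m hm => ?_⟩
  have h6 : (MulAut.conjNormal h : MulAut N) = 1 :=
    (map_eq_one_iff (MulAut.congr e) (MulAut.congr e).injective).1 h4
  have h7 : ((MulAut.conjNormal h : MulAut N) ⟨m, hm⟩ : G) = m := by
    rw [h6]
    rfl
  rw [MulAut.conjNormal_apply] at h7
  exact (mul_inv_eq_iff_eq_mul.1 h7).symm

/-- a power equal to one in two coprime ways -/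
lemma one_of_coprime {g : G} {m n : ℕ} (hm : g ^ m = 1) (hn : g ^ n = 1) (h : m.Coprime n) :
    g = 1 :=
  orderOf_eq_one_iff.1 (Nat.eq_one_of_dvd_coprimes h (orderOf_dvd_of_pow_eq_one hm)
    (orderOf_dvd_of_pow_eq_one hn))

/-- the second case of the lemma below: `c = 3` -/
lemma case_three [N.Normal] (hq : q.Prime) (hNc : Nat.card N = q) (hH : ∀ x ∈ H, ∀ y ∈ H, x * y = y * x)
    (hHC : Nat.card (H ⊓ Subgroup.centralizer (N : Set G) : Subgroup G) = 3) {d : ℕ}
    (hHc : Nat.card H = 3 * d) (hd0 : d ≠ 0) (hd2 : 2 ∣ d) (hq2 : 2 < q)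
    (hcop : Nat.Coprime 3 (2 * q)) :
    ∃ f : Cy 3 × DihedralGroup q →* G, Function.Injective f := by
  have hH0 : Nat.card H ≠ 0 := by rw [hHc]; omega
  obtain ⟨x, hxH, hx2⟩ := cauchy H 2 Nat.prime_two hH0 (by rw [hHc]; exact hd2.mul_left 3)
  obtain ⟨c0, hc0, hc3⟩ := cauchy (H ⊓ Subgroup.centralizer (N : Set G)) 3 Nat.prime_three
    (by rw [hHC]; norm_num) (by rw [hHC])
  obtain ⟨r, hr, hrq⟩ := cauchy N q hq (by rw [hNc]; exact hq.ne_zero) (by rw [hNc])
  have hxx : x * x = 1 := by rw [← sq, ← hx2, pow_orderOf_eq_one]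
  have hxC : x ∉ Subgroup.centralizer (N : Set G) := by
    intro hcon
    have h1 : (⟨x, hxH, hcon⟩ : (H ⊓ Subgroup.centralizer (N : Set G) : Subgroup G)) ^ 3 = 1 := by
      rw [← hHC]
      exact pow_card_eq_one'
    have h2 : x ^ 3 = 1 := congrArg Subtype.val h1
    have h3 := orderOf_dvd_of_pow_eq_one h2
    rw [hx2] at h3
    revert h3
    decide
  obtain ⟨m, hm, hxm⟩ : ∃ m ∈ N, x * m ≠ m * x := by
    by_contra hcon
    push Not at hcon
    exact hxC (Subgroup.mem_centralizer_iff.2 fun m hm => (hcon m hm).symm)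
  have hinv : x * r * x⁻¹ = r⁻¹ := inverts hq hNc (fun n _ => by rw [hxx, one_mul, mul_one]) hm hxm hr
  have hx' : x⁻¹ = x := (eq_inv_of_mul_eq_one_left hxx).symm
  have hsr : x * r * x = r⁻¹ := by rw [← hinv, hx']
  have hD := dihLift_injective q r x hq2 hrq hxx hsr
  set D := dihLift q r x (hrq ▸ pow_orderOf_eq_one r) hxx hsr with hDdef
  have hr1 : r ^ q = 1 := hrq ▸ pow_orderOf_eq_one r
  have hc1 : c0 ^ 3 = 1 := hc3 ▸ pow_orderOf_eq_one c0
  have hcr : Commute c0 r := ((Subgroup.mem_centralizer_iff.1 hc0.2) r hr).symm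
  have hcx : Commute c0 x := hH c0 hc0.1 x hxH
  have hzr : ∀ i : ZMod q, Commute c0 (zpw q r hr1 (Multiplicative.ofAdd i)) := by
    intro i
    obtain ⟨k, rfl⟩ := ZMod.intCast_surjective i
    rw [zpw_coe]
    exact hcr.zpow_right k
  have hcD : ∀ w, Commute c0 (D w) := by
    rintro (i | i)
    · exact hzr i
    · exact hcx.mul_right (hzr i)
  have hzc : ∀ u : Cy 3, ∃ k : ℤ, zpw 3 c0 hc1 u = c0 ^ k := by
    intro u
    obtain ⟨k, hk⟩ := ZMod.intCast_surjective (Multiplicative.toAdd u)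
    exact ⟨k, by rw [← zpw_coe 3 c0 hc1, hk]; rfl⟩
  refine ⟨MonoidHom.noncommCoprod (zpw 3 c0 hc1) D fun u w => ?_,
    (MonoidHom.noncommCoprod_injective _ _ _).2
      ⟨zpw_injective 3 c0 hc1 hc3, hD, Subgroup.disjoint_def.2 ?_⟩⟩
  · obtain ⟨k, hk⟩ := hzc u
    rw [hk]
    exact (hcD w).zpow_left k
  · rintro g ⟨u, rfl⟩ ⟨w, hw⟩
    obtain ⟨k, hk⟩ := hzc u
    refine one_of_coprime (m := 3) (n := 2 * q) ?_ ?_ hcop
    · rw [hk, ← zpow_natCast, ← zpow_mul, mul_comm, zpow_mul, zpow_natCast, hc1, one_zpow]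
    · rw [← hw, ← map_pow]
      have h1 : w ^ (2 * q) = 1 := by
        rw [← DihedralGroup.nat_card]
        exact pow_card_eq_one'
      rw [h1, map_one]

/-- the case `c = 4` -/
lemma case_four {N H : Subgroup G} [N.Normal] (hNc : Nat.card N = 7) (hcompl : N.IsComplement' H)
    (hH : ∀ x ∈ H, ∀ y ∈ H, x * y = y * x)
    (hHC : Nat.card (H ⊓ Subgroup.centralizer (N : Set G) : Subgroup G) = 4)
    (hHc : Nat.card H = 4 * 3) (hcyc : IsCyclic H) :
    ∃ (A : Subgroup (Hol (Cy 7))) (f : Cy 4 × A →* G), NonAb A ∧ Function.Injective f := by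
  have hq : Nat.Prime 7 := by norm_num
  obtain ⟨e⟩ := cy_iso hq hNc
  obtain ⟨F, hF1, hF2⟩ := hol_map hcompl e
  have hH0 : Nat.card H ≠ 0 := by rw [hHc]; norm_num
  obtain ⟨y, hyH, hy3⟩ := cauchy H 3 Nat.prime_three hH0 (by rw [hHc]; norm_num)
  have hy1 : y ^ 3 = 1 := hy3 ▸ pow_orderOf_eq_one y
  have hC4 : ∀ g ∈ H ⊓ Subgroup.centralizer (N : Set G), g ^ 4 = 1 := by
    intro g hg
    have h1 : (⟨g, hg⟩ : (H ⊓ Subgroup.centralizer (N : Set G) : Subgroup G)) ^ 4 = 1 := by
      rw [← hHC]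
      exact pow_card_eq_one'
    exact congrArg Subtype.val h1
  -- a generator of the centraliser
  obtain ⟨c0, hc0, hc4⟩ : ∃ c0 ∈ H ⊓ Subgroup.centralizer (N : Set G), orderOf c0 = 4 := by
    have h1 : IsCyclic (H ⊓ Subgroup.centralizer (N : Set G) : Subgroup G) :=
      isCyclic_of_injective (Subgroup.inclusion (inf_le_left :
        H ⊓ Subgroup.centralizer (N : Set G) ≤ H)) (Subgroup.inclusion_injective _)
    obtain ⟨g, hg⟩ := IsCyclic.exists_ofOrder_eq_natCard
      (α := (H ⊓ Subgroup.centralizer (N : Set G) : Subgroup G))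
    exact ⟨g, g.2, by rw [Subgroup.orderOf_coe, hg, hHC]⟩
  have hc1 : c0 ^ 4 = 1 := hc4 ▸ pow_orderOf_eq_one c0
  have hyC : y ∉ Subgroup.centralizer (N : Set G) := by
    intro hcon
    have h3 := orderOf_dvd_of_pow_eq_one (hC4 y ⟨hyH, hcon⟩)
    rw [hy3] at h3
    revert h3
    decide
  obtain ⟨m, hm, hym⟩ : ∃ m ∈ N, y * m ≠ m * y := by
    by_contra hcon
    push Not at hcon
    exact hyC (Subgroup.mem_centralizer_iff.2 fun m hm => (hcon m hm).symm)
  have hK : ∀ k ∈ N ⊔ Subgroup.zpowers y, ∃ n ∈ N, ∃ j : ℤ, k = n * y ^ j := by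
    intro k hk
    rw [← SetLike.mem_coe, Subgroup.normal_mul] at hk
    obtain ⟨n, hn, _, ⟨j, rfl⟩, hk⟩ := Set.mem_mul.1 hk
    exact ⟨n, hn, j, hk.symm⟩
  have hKF : ∀ k ∈ N ⊔ Subgroup.zpowers y, F k = 1 → k = 1 := by
    intro k hk hFk
    obtain ⟨n, hn, j, rfl⟩ := hK k hk
    have hyj : y ^ j ∈ H := H.zpow_mem hyH j
    obtain ⟨h1, h2⟩ := ker_map hF1 hF2 hn hyj hFk
    have h3 : y ^ j = 1 := by
      refine one_of_coprime (m := 4) (n := 3) (hC4 _ ⟨hyj, h2⟩) ?_ (by norm_num)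
      rw [← zpow_natCast, ← zpow_mul, mul_comm, zpow_mul, zpow_natCast, hy1, one_zpow]
    rw [h1, h3, one_mul]
  have hinj : Function.Injective (F.comp (N ⊔ Subgroup.zpowers y).subtype) := by
    rw [injective_iff_map_eq_one]
    intro k hk
    exact Subtype.ext (hKF k k.2 hk)
  let σ := MonoidHom.ofInjective hinj
  have hcN : ∀ n ∈ N, Commute c0 n := fun n hn => ((Subgroup.mem_centralizer_iff.1 hc0.2) n hn).symm
  have hcy : Commute c0 y := hH c0 hc0.1 y hyH
  have hcK : ∀ k ∈ N ⊔ Subgroup.zpowers y, Commute c0 k := by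
    intro k hk
    obtain ⟨n, hn, j, rfl⟩ := hK k hk
    exact (hcN n hn).mul_right (hcy.zpow_right j)
  have hzc : ∀ u : Cy 4, ∃ k : ℤ, zpw 4 c0 hc1 u = c0 ^ k := by
    intro u
    obtain ⟨k, hk⟩ := ZMod.intCast_surjective (Multiplicative.toAdd u)
    exact ⟨k, by rw [← zpw_coe 4 c0 hc1, hk]; rfl⟩
  refine ⟨(F.comp (N ⊔ Subgroup.zpowers y).subtype).range,
    MonoidHom.noncommCoprod (zpw 4 c0 hc1)
      ((N ⊔ Subgroup.zpowers y).subtype.comp σ.symm.toMonoidHom) fun u w => ?_, ?_,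
    (MonoidHom.noncommCoprod_injective _ _ _).2
      ⟨zpw_injective 4 c0 hc1 hc4, ?_, Subgroup.disjoint_def.2 ?_⟩⟩
  · obtain ⟨k, hk⟩ := hzc u
    rw [hk]
    exact (hcK _ (σ.symm w).2).zpow_left k
  · have hmK : m ∈ N ⊔ Subgroup.zpowers y := Subgroup.mem_sup_left hm
    have hyK : y ∈ N ⊔ Subgroup.zpowers y :=
      Subgroup.mem_sup_right (Subgroup.mem_zpowers y)
    refine ⟨⟨F y, ⟨⟨y, hyK⟩, rfl⟩⟩, ⟨F m, ⟨⟨m, hmK⟩, rfl⟩⟩, fun hcon => hym ?_⟩
    exact comm_of_map hF1 hF2 hyH hm (congrArg Subtype.val hcon)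
  · exact (Subgroup.subtype_injective _).comp σ.symm.injective
  · rintro g ⟨u, rfl⟩ ⟨w, hw⟩
    obtain ⟨k, hk⟩ := hzc u
    have h1 : zpw 4 c0 hc1 u ∈ N ⊔ Subgroup.zpowers y := by
      rw [← hw]
      exact (σ.symm w).2
    have h2 : zpw 4 c0 hc1 u ∈ H ⊓ Subgroup.centralizer (N : Set G) := by
      rw [hk]
      exact Subgroup.zpow_mem _ hc0 k
    apply hKF _ h1
    have h3 := hF2 ⟨_, h2.1⟩
    change F (zpw 4 c0 hc1 u) = _ at h3
    rw [h3]
    have h4 : (MulAut.conjNormal (zpw 4 c0 hc1 u) : MulAut N) = 1 := by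
      have h5 := h2.2
      rw [cent_eq_ker] at h5
      exact h5
    rw [h4, map_one, map_one]

/-- the case `c = 2`, `d` even -/
lemma case_two [N.Normal] (hq : q.Prime) (hNc : Nat.card N = q)
    (hH : ∀ x ∈ H, ∀ y ∈ H, x * y = y * x)
    (hHC : Nat.card (H ⊓ Subgroup.centralizer (N : Set G) : Subgroup G) = 2) {d : ℕ}
    (hHc : Nat.card H = 2 * d) (hd0 : d ≠ 0) (hd2 : 2 ∣ d) (hq2 : 2 < q) :
    (∃ f : DihedralGroup (2 * q) →* G, Function.Injective f) ∨
      (∃ f : QuaternionGroup q →* G, Function.Injective f) := by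
  have hH0 : Nat.card H ≠ 0 := by rw [hHc]; omega
  obtain ⟨z, hz, hz2⟩ := cauchy (H ⊓ Subgroup.centralizer (N : Set G)) 2 Nat.prime_two
    (by rw [hHC]; norm_num) (by rw [hHC])
  obtain ⟨r, hr, hrq⟩ := cauchy N q hq (by rw [hNc]; exact hq.ne_zero) (by rw [hNc])
  have hFin : Finite H := Nat.finite_of_card_ne_zero hH0
  let ψ : H →* MulAut N := (MulAut.conjNormal (G := G) (H := N)).comp H.subtype
  have hker : Nat.card ψ.ker = 2 := by
    rw [← hHC]
    have h1 : ψ.ker = (H ⊓ Subgroup.centralizer (N : Set G)).subgroupOf H := by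
      ext g
      rw [MonoidHom.mem_ker, Subgroup.mem_subgroupOf, Subgroup.mem_inf, cent_eq_ker,
        MonoidHom.mem_ker]
      exact ⟨fun h => ⟨g.2, h⟩, fun h => h.2⟩
    rw [h1]
    exact Nat.card_congr (Subgroup.subgroupOfEquivOfLe inf_le_left).toEquiv
  have hran : Nat.card ψ.range = d := by
    have h1 := ψ.ker.card_mul_index
    rw [Subgroup.index_ker, hker, hHc] at h1
    exact Nat.eq_of_mul_eq_mul_left (by norm_num) h1
  obtain ⟨w, ⟨x, hxw⟩, hw2⟩ := cauchy ψ.range 2 Nat.prime_two (by rw [hran]; exact hd0)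
    (by rw [hran]; exact hd2)
  have hψ : ∀ g : H, ψ g = 1 ↔ (g : G) ∈ Subgroup.centralizer (N : Set G) := by
    intro g
    rw [cent_eq_ker, MonoidHom.mem_ker]
    exact Iff.rfl
  have hxC : (x : G) ∉ Subgroup.centralizer (N : Set G) := by
    intro hcon
    rw [← hψ, hxw] at hcon
    rw [hcon, orderOf_one] at hw2
    exact absurd hw2 (by norm_num)
  have hxxC : (x : G) * x ∈ Subgroup.centralizer (N : Set G) := by
    have h1 : ψ (x * x) = 1 := by
      rw [map_mul, hxw, ← sq, ← hw2, pow_orderOf_eq_one]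
    exact (hψ (x * x)).1 h1
  obtain ⟨m, hm, hxm⟩ : ∃ m ∈ N, (x : G) * m ≠ m * x := by
    by_contra hcon
    push Not at hcon
    exact hxC (Subgroup.mem_centralizer_iff.2 fun m hm => (hcon m hm).symm)
  have hinv : (x : G) * r * (x : G)⁻¹ = r⁻¹ :=
    inverts hq hNc (fun n hn => ((Subgroup.mem_centralizer_iff.1 hxxC) n hn).symm) hm hxm hr
  have hzz : z * z = 1 := by rw [← sq, ← hz2, pow_orderOf_eq_one]
  have hzi : z⁻¹ = z := (eq_inv_of_mul_eq_one_left hzz).symm
  have hrz : Commute r z := (Subgroup.mem_centralizer_iff.1 hz.2) r hr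
  have hxz : (x : G) * z = z * x := hH x x.2 z hz.1
  have hodd : Odd q := hq.odd_of_ne_two (by omega)
  have hord : orderOf (r * z) = 2 * q := by
    rw [hrz.orderOf_mul_eq_mul_orderOf_of_coprime (by
      rw [hrq, hz2]
      exact (Nat.coprime_two_right).2 hodd), hrq, hz2, mul_comm]
  have hconj : (x : G) * (r * z) * (x : G)⁻¹ = (r * z)⁻¹ := by
    have h1 : (x : G) * z * (x : G)⁻¹ = z := by rw [hxz, mul_inv_cancel_right]
    calc (x : G) * (r * z) * (x : G)⁻¹ = ((x : G) * r * (x : G)⁻¹) * ((x : G) * z * (x : G)⁻¹) := by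
          group
      _ = r⁻¹ * z := by rw [hinv, h1]
      _ = (r * z)⁻¹ := by rw [hrz.eq, mul_inv_rev, hzi]
  by_cases hxx : (x : G) * x = 1
  · left
    have hx' : (x : G)⁻¹ = x := (eq_inv_of_mul_eq_one_left hxx).symm
    have hsr : (x : G) * (r * z) * x = (r * z)⁻¹ := by rw [← hconj, hx']
    exact ⟨_, dihLift_injective (2 * q) (r * z) x (by omega) hord hxx hsr⟩
  · right
    have hz1 : z ≠ 1 := by
      intro h1
      rw [h1, orderOf_one] at hz2
      exact absurd hz2 (by norm_num)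
    have hxz' : (x : G) * x = z := by
      have hu := (Nat.card_eq_two_iff' (1 : (H ⊓ Subgroup.centralizer (N : Set G) : Subgroup G))).1 hHC
      have h1 := hu.unique (y₁ := ⟨(x : G) * x, H.mul_mem x.2 x.2, hxxC⟩) (y₂ := ⟨z, hz⟩)
        (fun h => hxx (congrArg Subtype.val h)) (fun h => hz1 (congrArg Subtype.val h))
      exact congrArg Subtype.val h1
    have hpow : (r * z) ^ q = z := by
      rw [hrz.mul_pow, ← hrq, pow_orderOf_eq_one, one_mul, hrq]
      obtain ⟨k, hk⟩ := hodd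
      rw [hk, pow_succ, pow_mul, sq, hzz, one_pow, one_mul]
    exact ⟨_, quatLift_injective q (r * z) x hq.one_lt hord (by rw [hpow]; exact hxz') hconj⟩

end gen

end MetC

open MetC

/-- the factor group modulo the centre is a nonabelian subgroup of the holomorph -/
theorem meta_quo {G : Type} [Group G] {q c d : ℕ} {N H : Subgroup G} (h : MData G q c d N H) :
    ∃ (A : Subgroup (Hol (Cy q))) (f : G →* A), NonAb A ∧ Function.Surjective f := by
  obtain ⟨hq, hN, hNc, hcompl, hH, hHC, hHc, hd, hP, h4⟩ := h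
  obtain ⟨e⟩ := cy_iso hq hNc
  obtain ⟨F, hF1, hF2⟩ := hol_map hcompl e
  have hc0 : 0 < c := by
    have := params_c hP
    omega
  obtain ⟨a, ha, n, hn, hne⟩ := exists_nc hHC hHc hc0 hd
  refine ⟨F.range, F.rangeRestrict, ⟨⟨F a, ⟨a, rfl⟩⟩, ⟨F n, ⟨n, rfl⟩⟩, fun hcon => hne ?_⟩,
    F.rangeRestrict_surjective⟩
  exact comm_of_map hF1 hF2 ha hn (congrArg Subtype.val hcon)

/-- the groups of the second kind contain one of these groups -/
theorem meta_sub {G : Type} [Group G] {q c d : ℕ} {N H : Subgroup G} (h : MData G q c d N H)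
    (hP : PB q c d) :
    (∃ f : DihedralGroup (2 * q) →* G, Function.Injective f) ∨
      (∃ f : QuaternionGroup q →* G, Function.Injective f) ∨
      (∃ f : Cy 3 × DihedralGroup q →* G, Function.Injective f) ∨
      (q = 7 ∧ ∃ (A : Subgroup (Hol (Cy 7))) (f : Cy 4 × A →* G), NonAb A ∧
        Function.Injective f) := by
  obtain ⟨hq, hN, hNc, hcompl, hH, hHC, hHc, hd, hPar, h4⟩ := h
  rcases hP with ⟨rfl, hd2, hq3⟩ | ⟨rfl, rfl, rfl⟩ | ⟨rfl, rfl⟩ | ⟨rfl, rfl, rfl⟩
  · have h1 := case_two hq hNc hH hHC hHc (by omega) (Nat.dvd_of_mod_eq_zero hd2) (by omega)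
    rcases h1 with h1 | h1
    · exact Or.inl h1
    · exact Or.inr (Or.inl h1)
  · exact Or.inr (Or.inr (Or.inr ⟨rfl, case_four hNc hcompl hH hHC hHc (h4 rfl)⟩))
  · have hdd : d ∣ 4 := by
      have h1 := compl_card hq N H hNc hcompl
      rw [hHC, hHc] at h1
      have h2 : (Subgroup.centralizer (N : Set G)).index = d :=
        Nat.eq_of_mul_eq_mul_left (by norm_num) h1
      rw [← h2]
      exact idx_dvd hq N hNc
    have hd2 : 2 ∣ d := by
      have h1 := Nat.le_of_dvd (by norm_num) hdd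
      interval_cases d
      · norm_num
      · revert hdd
        decide
      · norm_num
    exact Or.inr (Or.inr (Or.inl (case_three hq hNc hH hHC hHc (by omega) hd2 (by norm_num)
      (by norm_num))))
  · exact Or.inr (Or.inr (Or.inl (case_three hq hNc hH hHC hHc (by norm_num) (by norm_num)
      (by norm_num) (by norm_num))))

end Pool.Agent.SHAJ
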