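import Mathlib
import Pool.Agent.SHAJ.Defs

set_option autoImplicit false

/-!
Nonabelian subgroups of the holomorph of a group of prime order (module NECA).
-/

namespace Pool.Agent.SHAJ

open Pool.Agent.SHAF

/-- the automorphisms of a cyclic group commute -/
private theorem necA_comm {q : ℕ} (a b : MulAut (Cy q)) : a * b = b * a := by
  let e := IsCyclic.mulAutMulEquiv (Cy q)
  apply e.injective
  rw [map_mul, map_mul, mul_comm]

/-- commutators lie in the normal factor -/
private theorem necA_right {q : ℕ} (h k : Hol (Cy q)) : (h * k * h⁻¹ * k⁻¹).right = 1 := by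
  simp only [SemidirectProduct.mul_right, SemidirectProduct.inv_right]
  rw [necA_comm h.right k.right]
  group

/-- an element of `Hol N` with trivial second component -/
private theorem necA_inl {q : ℕ} {h : Hol (Cy q)} (hh : h.right = 1) :
    h = SemidirectProduct.inl h.left := by
  apply SemidirectProduct.ext
  · simp
  · simp [hh]

/-- conjugation of the normal factor -/
private theorem necA_conj {q : ℕ} (h : Hol (Cy q)) (n : Cy q) :
    h * SemidirectProduct.inl n * h⁻¹ = SemidirectProduct.inl (h.right n) := by
  apply SemidirectProduct.ext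
  · simp only [SemidirectProduct.mul_left, SemidirectProduct.mul_right, SemidirectProduct.inv_left,
      SemidirectProduct.left_inl, SemidirectProduct.right_inl, MonoidHom.id_apply, mul_one]
    simp only [map_inv, MulAut.apply_inv_self]
    rw [mul_comm h.left, mul_assoc, mul_inv_cancel, mul_one]
  · simp

/-- a nontrivial element of a group of prime order generates it -/
private theorem necA_gen {q : ℕ} (hq : q.Prime) {n : Cy q} (hn : n ≠ 1) (m : Cy q) :
    ∃ k : ℤ, n ^ k = m := by
  have : Fact q.Prime := ⟨hq⟩
  have hc : Nat.card (Cy q) = q := by simp [Cy]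
  have h : m ∈ Subgroup.zpowers n := by
    rw [zpowers_eq_top_of_prime_card hc hn]
    trivial
  obtain ⟨k, hk⟩ := h
  exact ⟨k, hk⟩

theorem hol_embeds {q : ℕ} (hq : q.Prime) (A : Subgroup (Hol (Cy q))) (hA : NonAb A) :
    ∃ f : Hol (Cy q) →* MulAut A, Function.Injective f := by
  obtain ⟨a, b, hab⟩ := hA
  have hab' : (a : Hol (Cy q)) * b ≠ b * a := fun h => hab (Subtype.ext h)
  -- the normal factor lies in `A`
  have hN : ∀ n : Cy q, (SemidirectProduct.inl n : Hol (Cy q)) ∈ A := by
    intro n
    have hc : (a : Hol (Cy q)) * b * (a : Hol (Cy q))⁻¹ * (b : Hol (Cy q))⁻¹ ∈ A :=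
      A.mul_mem (A.mul_mem (A.mul_mem a.2 b.2) (A.inv_mem a.2)) (A.inv_mem b.2)
    have h1 := necA_inl (necA_right (a : Hol (Cy q)) b)
    set c := (a : Hol (Cy q)) * b * (a : Hol (Cy q))⁻¹ * (b : Hol (Cy q))⁻¹ with hcdef
    have hne : c.left ≠ 1 := by
      intro h
      rw [h, map_one] at h1
      apply hab'
      rw [hcdef] at h1
      calc (a : Hol (Cy q)) * b = (a * b * (a : Hol (Cy q))⁻¹ * (b : Hol (Cy q))⁻¹) * (b * a) := by
            group
        _ = b * a := by rw [h1, one_mul]
    obtain ⟨k, hk⟩ := necA_gen hq hne n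
    have : (SemidirectProduct.inl n : Hol (Cy q)) = c ^ k := by
      rw [← hk, map_zpow, ← h1]
    rw [this]
    exact A.zpow_mem hc k
  -- `A` is normal
  have hnorm : A.Normal := by
    refine ⟨fun x hx h => ?_⟩
    have h1 := necA_inl (necA_right h x)
    have h2 : h * x * h⁻¹ = (h * x * h⁻¹ * x⁻¹) * x := by group
    rw [h2, h1]
    exact A.mul_mem (hN _) hx
  refine ⟨MulAut.conjNormal, (injective_iff_map_eq_one _).2 fun h hh => ?_⟩
  have hcomm : ∀ x ∈ A, h * x * h⁻¹ = x := by
    intro x hx
    have := congrArg (fun e : MulAut A => ((e ⟨x, hx⟩ : A) : Hol (Cy q))) hh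
    simpa [MulAut.conjNormal_apply] using this
  have hr : h.right = 1 := by
    ext n
    have h1 := hcomm _ (hN n)
    rw [necA_conj] at h1
    have h2 := SemidirectProduct.inl_injective h1
    simp [h2]
  have hh1 := necA_inl hr
  -- an element of `A` outside the normal factor
  by_contra hne
  have hm : h.left ≠ 1 := by
    intro h0
    apply hne
    rw [hh1, h0, map_one]
  have hall : ∀ x ∈ A, x.right = 1 := by
    intro x hx
    have h1 := hcomm x hx
    have h2 : x * h * x⁻¹ = h := by
      have h3 : h * x = x * h := by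
        calc h * x = (h * x * h⁻¹) * h := by group
          _ = x * h := by rw [h1]
      rw [← h3]
      group
    rw [hh1, necA_conj] at h2
    have h3 := SemidirectProduct.inl_injective h2
    ext n
    obtain ⟨k, hk⟩ := necA_gen hq hm n
    rw [← hk, map_zpow, h3]
    simp
  apply hab'
  rw [necA_inl (hall _ a.2), necA_inl (hall _ b.2), ← map_mul, ← map_mul, mul_comm]

end Pool.Agent.SHAJ
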