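import Mathlib
import Pool.Agent.SHAJ.Defs

set_option autoImplicit false

/-!
Automorphism groups that contain the direct product of the holomorph of a group of odd prime order
and a group of order 2 (module NECB).
-/

namespace Pool.Agent.SHAJ

open Pool.Agent.SHAF

/-- the automorphism of the dihedral group given by an affine map -/
private def dihAut (m : ℕ) (u : ZMod m ≃+ ZMod m) (b : ZMod m) : MulAut (DihedralGroup m) where
  toFun x := match x with
    | .r i => .r (u i)
    | .sr i => .sr (u i + b)
  invFun x := match x with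
    | .r i => .r (u.symm i)
    | .sr i => .sr (u.symm (i - b))
  left_inv x := by cases x <;> simp
  right_inv x := by cases x <;> simp
  map_mul' x y := by
    cases x <;> cases y
    · simp [DihedralGroup.r_mul_r]
    · simp [DihedralGroup.r_mul_sr]; abel
    · simp [DihedralGroup.sr_mul_r]; abel
    · simp [DihedralGroup.sr_mul_sr]

/-- the automorphism of the quaternion group given by an affine map -/
private def quatAut (q : ℕ) (u : ZMod (2 * q) ≃+ ZMod (2 * q)) (b : ZMod (2 * q))
    (hu : u (q : ZMod (2 * q)) = (q : ZMod (2 * q))) : MulAut (QuaternionGroup q) where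
  toFun x := match x with
    | .a i => .a (u i)
    | .xa i => .xa (u i + b)
  invFun x := match x with
    | .a i => .a (u.symm i)
    | .xa i => .xa (u.symm (i - b))
  left_inv x := by cases x <;> simp
  right_inv x := by cases x <;> simp
  map_mul' x y := by
    cases x <;> cases y
    · simp [QuaternionGroup.a_mul_a]
    · simp [QuaternionGroup.a_mul_xa]; abel
    · simp [QuaternionGroup.xa_mul_a]; abel
    · simp [QuaternionGroup.xa_mul_xa, hu]; abel

variable {q : ℕ}

/-- the decomposition of `ZMod (2 * q)` -/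
private noncomputable def EE (h : Nat.Coprime 2 q) : ZMod (2 * q) ≃+* ZMod 2 × ZMod q :=
  ZMod.chineseRemainder h

/-- the linear part -/
private noncomputable def UU (h : Nat.Coprime 2 q) (α : MulAut (Cy q)) :
    ZMod (2 * q) ≃+ ZMod (2 * q) :=
  ((EE h).toAddEquiv.trans
    (AddEquiv.prodCongr (AddEquiv.refl (ZMod 2)) (AddEquiv.toMultiplicative.symm α))).trans
    (EE h).symm.toAddEquiv

private theorem UU_apply (h : Nat.Coprime 2 q) (α : MulAut (Cy q)) (x : ZMod (2 * q)) :
    UU h α x = (EE h).symm (((EE h) x).1, (α (Multiplicative.ofAdd ((EE h) x).2)).toAdd) := rfl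

/-- the translation part -/
private noncomputable def TT (h : Nat.Coprime 2 q) (n : Cy q) (e : Cy 2) : ZMod (2 * q) :=
  (EE h).symm (e.toAdd, n.toAdd)

private theorem UU_q (h : Nat.Coprime 2 q) (α : MulAut (Cy q)) :
    UU h α (q : ZMod (2 * q)) = (q : ZMod (2 * q)) := by
  rw [UU_apply]
  have h1 : (EE h) (q : ZMod (2 * q)) = ((q : ZMod 2), (0 : ZMod q)) := by
    rw [map_natCast]
    ext
    · simp
    · simp
  rw [h1]
  simp only [ofAdd_zero, map_one, toAdd_one]
  rw [← h1]
  simp

private theorem UU_mul (h : Nat.Coprime 2 q) (α β : MulAut (Cy q)) (x : ZMod (2 * q)) :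
    UU h (α * β) x = UU h α (UU h β x) := by
  rw [UU_apply, UU_apply, UU_apply]
  simp

private theorem UU_TT (h : Nat.Coprime 2 q) (α : MulAut (Cy q)) (n : Cy q) (e : Cy 2) :
    UU h α (TT h n e) = TT h (α n) e := by
  rw [UU_apply]
  simp [TT]

private theorem TT_mul (h : Nat.Coprime 2 q) (n m : Cy q) (e f : Cy 2) :
    TT h (n * m) (e * f) = TT h n e + TT h m f := by
  unfold TT
  rw [← map_add]
  simp

private theorem TT_zero (h : Nat.Coprime 2 q) (n : Cy q) (e : Cy 2) (h0 : TT h n e = 0) :
    n = 1 ∧ e = 1 := by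
  unfold TT at h0
  rw [map_eq_zero_iff _ (EE h).symm.injective] at h0
  have h1 := congrArg Prod.fst h0
  have h2 := congrArg Prod.snd h0
  simp at h1 h2
  exact ⟨h2, h1⟩

private theorem UU_id (h : Nat.Coprime 2 q) (α : MulAut (Cy q)) (h0 : ∀ x, UU h α x = x) :
    α = 1 := by
  ext x
  have := h0 (TT h x 1)
  rw [UU_TT] at this
  unfold TT at this
  have h2 := congrArg Prod.snd ((EE h).symm.injective this)
  simpa using h2

theorem hol2_dih {q : ℕ} (hq : q.Prime) (hodd : q ≠ 2) :
    ∃ f : Hol (Cy q) × Cy 2 →* MulAut (DihedralGroup (2 * q)), Function.Injective f := by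
  have h : Nat.Coprime 2 q := (Nat.coprime_primes Nat.prime_two hq).mpr (Ne.symm hodd)
  refine ⟨MonoidHom.mk' (fun g => dihAut (2 * q) (UU h g.1.right) (TT h g.1.left g.2)) ?_, ?_⟩
  · intro g g'
    refine MulEquiv.ext fun x => ?_
    cases x with
    | r i =>
      show DihedralGroup.r (UU h (g.1.right * g'.1.right) i) =
        DihedralGroup.r (UU h g.1.right (UU h g'.1.right i))
      rw [UU_mul]
    | sr i =>
      show DihedralGroup.sr (UU h (g.1.right * g'.1.right) i +
          TT h (g.1.left * g.1.right g'.1.left) (g.2 * g'.2)) =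
        DihedralGroup.sr (UU h g.1.right (UU h g'.1.right i + TT h g'.1.left g'.2) +
          TT h g.1.left g.2)
      rw [UU_mul, TT_mul, map_add, UU_TT]
      congr 1
      abel
  · refine (injective_iff_map_eq_one _).mpr fun g hg => ?_
    have hx : ∀ x, dihAut (2 * q) (UU h g.1.right) (TT h g.1.left g.2) x = x := fun x =>
      DFunLike.congr_fun hg x
    have h1 : ∀ i, UU h g.1.right i = i := fun i => by
      have := hx (DihedralGroup.r i)
      exact DihedralGroup.r.inj this
    have h2 : TT h g.1.left g.2 = 0 := by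
      have := DihedralGroup.sr.inj (hx (DihedralGroup.sr 0))
      rwa [h1, zero_add] at this
    obtain ⟨h3, h4⟩ := TT_zero h _ _ h2
    refine Prod.ext (SemidirectProduct.ext h3 (UU_id h _ h1)) h4

theorem hol2_quat {q : ℕ} (hq : q.Prime) (hodd : q ≠ 2) :
    ∃ f : Hol (Cy q) × Cy 2 →* MulAut (QuaternionGroup q), Function.Injective f := by
  have h : Nat.Coprime 2 q := (Nat.coprime_primes Nat.prime_two hq).mpr (Ne.symm hodd)
  refine ⟨MonoidHom.mk' (fun g => quatAut q (UU h g.1.right) (TT h g.1.left g.2)
    (UU_q h g.1.right)) ?_, ?_⟩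
  · intro g g'
    refine MulEquiv.ext fun x => ?_
    cases x with
    | a i =>
      show QuaternionGroup.a (UU h (g.1.right * g'.1.right) i) =
        QuaternionGroup.a (UU h g.1.right (UU h g'.1.right i))
      rw [UU_mul]
    | xa i =>
      show QuaternionGroup.xa (UU h (g.1.right * g'.1.right) i +
          TT h (g.1.left * g.1.right g'.1.left) (g.2 * g'.2)) =
        QuaternionGroup.xa (UU h g.1.right (UU h g'.1.right i + TT h g'.1.left g'.2) +
          TT h g.1.left g.2)
      rw [UU_mul, TT_mul, map_add, UU_TT]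
      congr 1
      abel
  · refine (injective_iff_map_eq_one _).mpr fun g hg => ?_
    have hx : ∀ x, quatAut q (UU h g.1.right) (TT h g.1.left g.2) (UU_q h g.1.right) x = x :=
      fun x => DFunLike.congr_fun hg x
    have h1 : ∀ i, UU h g.1.right i = i := fun i => by
      have := hx (QuaternionGroup.a i)
      exact QuaternionGroup.a.inj this
    have h2 : TT h g.1.left g.2 = 0 := by
      have := QuaternionGroup.xa.inj (hx (QuaternionGroup.xa 0))
      rwa [h1, zero_add] at this
    obtain ⟨h3, h4⟩ := TT_zero h _ _ h2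
    refine Prod.ext (SemidirectProduct.ext h3 (UU_id h _ h1)) h4

end Pool.Agent.SHAJ
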