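import Mathlib
import Pool.Agent.SHAJ.NecA

set_option autoImplicit false

/-!
Automorphism groups of direct products with a cyclic group (module NECC).
-/

namespace Pool.Agent.SHAJ

open Pool.Agent.SHAF

/-- automorphisms of the factors give automorphisms of the product -/
private theorem necc_prod {X Y H1 H2 : Type} [Group X] [Group Y] [Group H1] [Group H2]
    (f : H1 →* MulAut Y) (hf : Function.Injective f) (g : H2 →* MulAut X)
    (hg : Function.Injective g) : ∃ F : H1 × H2 →* MulAut (X × Y), Function.Injective F := by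
  let F : H1 × H2 →* MulAut (X × Y) :=
    { toFun := fun h => MulEquiv.prodCongr (g h.2) (f h.1)
      map_one' := by
        ext1 x
        show (g (1 : H1 × H2).2 x.1, f (1 : H1 × H2).1 x.2) = x
        rw [Prod.fst_one, Prod.snd_one, map_one, map_one]
        rfl
      map_mul' := fun h k => by
        ext1 x
        show (g (h * k).2 x.1, f (h * k).1 x.2) = (g h.2 (g k.2 x.1), f h.1 (f k.1 x.2))
        rw [Prod.fst_mul, Prod.snd_mul, map_mul, map_mul]
        rfl }
  have hF : ∀ (h : H1 × H2) (x : X × Y), F h x = (g h.2 x.1, f h.1 x.2) := fun _ _ => rfl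
  refine ⟨F, ?_⟩
  rw [injective_iff_map_eq_one]
  intro h hh
  have h1 : ∀ x : X × Y, (g h.2 x.1, f h.1 x.2) = x := by
    intro x
    rw [← hF, hh]
    rfl
  refine Prod.ext ?_ ?_
  · apply hf
    rw [Prod.fst_one, map_one]
    ext1 y
    exact congrArg Prod.snd (h1 (1, y))
  · apply hg
    rw [Prod.snd_one, map_one]
    ext1 x
    exact congrArg Prod.fst (h1 (x, 1))

/-- the homomorphism from the group of order 2 given by an involution -/
private theorem necc_two {M : Type} [Group M] (τ : M) (h : τ * τ = 1) (h1 : τ ≠ 1) :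
    ∃ g : Cy 2 →* M, Function.Injective g := by
  have e1 : ∀ x y : Multiplicative (ZMod 2), x ≠ 1 → y ≠ 1 → x * y = 1 := by decide
  have e2 : ∀ x y : Multiplicative (ZMod 2), x ≠ 1 → y ≠ 1 → x = y := by decide
  refine ⟨
    { toFun := fun x => if x = 1 then 1 else τ
      map_one' := if_pos rfl
      map_mul' := fun x y => by
        by_cases hx : x = 1
        · rw [hx, one_mul, if_pos rfl, one_mul]
        · by_cases hy : y = 1
          · rw [hy, mul_one, if_pos rfl, mul_one]
          · rw [if_neg hx, if_neg hy, e1 x y hx hy, if_pos rfl, h] }, ?_⟩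
  intro x y hxy
  have hxy' : (if x = 1 then 1 else τ) = if y = 1 then 1 else τ := hxy
  by_cases hx : x = 1
  · by_cases hy : y = 1
    · rw [hx, hy]
    · rw [if_pos hx, if_neg hy] at hxy'
      exact absurd hxy'.symm h1
  · by_cases hy : y = 1
    · rw [if_neg hx, if_pos hy] at hxy'
      exact absurd hxy' h1
    · exact e2 x y hx hy

/-- the inversion -/
private theorem necc_inv {X : Type} [CommGroup X] (x : X) (hx : x⁻¹ ≠ x) :
    ∃ g : Cy 2 →* MulAut X, Function.Injective g := by
  refine necc_two (MulEquiv.inv X : MulAut X) ?_ ?_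
  · ext1 y
    exact inv_inv y
  · intro h
    exact hx (congrArg (fun e : MulAut X => e x) h)

/-- the action of the holomorph on the dihedral group -/
private def neccF {q : ℕ} (h : Hol (Cy q)) : DihedralGroup q → DihedralGroup q
  | DihedralGroup.r i => DihedralGroup.r (h.right (Multiplicative.ofAdd i)).toAdd
  | DihedralGroup.sr i => DihedralGroup.sr ((h.right (Multiplicative.ofAdd i)).toAdd + h.left.toAdd)

private theorem neccF_one {q : ℕ} (x : DihedralGroup q) : neccF (1 : Hol (Cy q)) x = x := by
  cases x with
  | r i => rfl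
  | sr i =>
    show DihedralGroup.sr (i + 0) = _
    rw [add_zero]

private theorem neccF_comp {q : ℕ} (h k : Hol (Cy q)) (x : DihedralGroup q) :
    neccF (h * k) x = neccF h (neccF k x) := by
  cases x with
  | r i => rfl
  | sr i =>
    show DihedralGroup.sr ((h.right (k.right (Multiplicative.ofAdd i))).toAdd + (h * k).left.toAdd) =
      DihedralGroup.sr ((h.right (Multiplicative.ofAdd ((k.right (Multiplicative.ofAdd i)).toAdd +
        k.left.toAdd))).toAdd + h.left.toAdd)
    rw [SemidirectProduct.mul_left, ofAdd_add, ofAdd_toAdd, ofAdd_toAdd, map_mul h.right, toAdd_mul, toAdd_mul]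
    show DihedralGroup.sr ((h.right (k.right (Multiplicative.ofAdd i))).toAdd +
      (h.left.toAdd + (h.right k.left).toAdd)) = _
    congr 1
    ring

private theorem neccF_mul {q : ℕ} (h : Hol (Cy q)) (x y : DihedralGroup q) :
    neccF h (x * y) = neccF h x * neccF h y := by
  have hs : ∀ i j : ZMod q, (h.right (Multiplicative.ofAdd (j - i))).toAdd =
      (h.right (Multiplicative.ofAdd j)).toAdd - (h.right (Multiplicative.ofAdd i)).toAdd := by
    intro i j
    rw [ofAdd_sub, map_div, toAdd_div]
  have ha : ∀ i j : ZMod q, (h.right (Multiplicative.ofAdd (i + j))).toAdd =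
      (h.right (Multiplicative.ofAdd i)).toAdd + (h.right (Multiplicative.ofAdd j)).toAdd := by
    intro i j
    rw [ofAdd_add, map_mul, toAdd_mul]
  cases x with
  | r i =>
    cases y with
    | r j =>
      rw [DihedralGroup.r_mul_r]
      show DihedralGroup.r _ = DihedralGroup.r _ * DihedralGroup.r _
      rw [DihedralGroup.r_mul_r, ha]
    | sr j =>
      rw [DihedralGroup.r_mul_sr]
      show DihedralGroup.sr _ = DihedralGroup.r _ * DihedralGroup.sr _
      rw [DihedralGroup.r_mul_sr, hs]
      congr 1
      ring
  | sr i =>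
    cases y with
    | r j =>
      rw [DihedralGroup.sr_mul_r]
      show DihedralGroup.sr _ = DihedralGroup.sr _ * DihedralGroup.r _
      rw [DihedralGroup.sr_mul_r, ha]
      congr 1
      ring
    | sr j =>
      rw [DihedralGroup.sr_mul_sr]
      show DihedralGroup.r _ = DihedralGroup.sr _ * DihedralGroup.sr _
      rw [DihedralGroup.sr_mul_sr, hs]
      congr 1
      ring

private theorem necc_dih (q : ℕ) : ∃ f : Hol (Cy q) →* MulAut (DihedralGroup q), Function.Injective f := by
  let f : Hol (Cy q) →* MulAut (DihedralGroup q) :=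
    { toFun := fun h =>
        { toFun := neccF h
          invFun := neccF h⁻¹
          left_inv := fun x => by rw [← neccF_comp, inv_mul_cancel, neccF_one]
          right_inv := fun x => by rw [← neccF_comp, mul_inv_cancel, neccF_one]
          map_mul' := neccF_mul h }
      map_one' := by
        ext1 x
        exact neccF_one x
      map_mul' := fun h k => by
        ext1 x
        exact neccF_comp h k x }
  have hf : ∀ h x, f h x = neccF h x := fun _ _ => rfl
  refine ⟨f, ?_⟩
  rw [injective_iff_map_eq_one]
  intro h hh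
  have h1 : ∀ x, neccF h x = x := fun x => by
    rw [← hf, hh]
    rfl
  have hr : ∀ i : ZMod q, (h.right (Multiplicative.ofAdd i)).toAdd = i := fun i => by
    have h2 : DihedralGroup.r (h.right (Multiplicative.ofAdd i)).toAdd = DihedralGroup.r i := h1 (DihedralGroup.r i)
    exact DihedralGroup.r.inj h2
  have hl : h.left = 1 := by
    have h2 : DihedralGroup.sr ((h.right (Multiplicative.ofAdd 0)).toAdd + h.left.toAdd) = DihedralGroup.sr 0 :=
      h1 (DihedralGroup.sr 0)
    have h3 := DihedralGroup.sr.inj h2
    rw [hr, zero_add] at h3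
    exact Multiplicative.toAdd.injective h3
  refine SemidirectProduct.ext hl ?_
  ext1 i
  exact Multiplicative.toAdd.injective (hr i.toAdd)

theorem hol2_prod {q : ℕ} (hq : q.Prime) (hodd : q ≠ 2) :
    ∃ f : Hol (Cy q) × Cy 2 →* MulAut (Cy 3 × DihedralGroup q), Function.Injective f := by
  have _ := hq
  have _ := hodd
  obtain ⟨f, hf⟩ := necc_dih q
  obtain ⟨g, hg⟩ := necc_inv (X := Cy 3) (Multiplicative.ofAdd 1) (by decide)
  exact necc_prod f hf g hg

theorem hol2_prod4 {q : ℕ} (hq : q.Prime) (A : Subgroup (Hol (Cy q))) (hA : NonAb A) :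
    ∃ f : Hol (Cy q) × Cy 2 →* MulAut (Cy 4 × A), Function.Injective f := by
  obtain ⟨f, hf⟩ := hol_embeds hq A hA
  obtain ⟨g, hg⟩ := necc_inv (X := Cy 4) (Multiplicative.ofAdd 1) (by decide)
  exact necc_prod f hf g hg

end Pool.Agent.SHAJ
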