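import Mathlib
import Pool.Agent.SHAJ.Defs

set_option autoImplicit false

/-!
Automorphism groups of some small groups (module TABA).
-/

namespace Pool.Agent.SHAJ

open Pool.Agent.SHAF

private theorem TabA_iso {X G : Type} [Group X] [Group G] (φ : X → G → G) (a b : G)
    (hmul : ∀ x g h, φ x (g * h) = φ x g * φ x h) (hcomp : ∀ x y g, φ (x * y) g = φ x (φ y g))
    (h1 : ∀ g, φ 1 g = g) (gen : ∀ g : G, ∃ i j : ℕ, g = a ^ i * b ^ j)
    (inj : ∀ x, φ x a = a → φ x b = b → x = 1)
    (surj : ∀ α : MulAut G, ∃ x, φ x a = α a ∧ φ x b = α b) : Nonempty (MulAut G ≃* X) := by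
  let Φ : X →* MulAut G :=
    { toFun := fun x =>
        { toFun := φ x
          invFun := φ x⁻¹
          left_inv := fun g => by rw [← hcomp, inv_mul_cancel, h1]
          right_inv := fun g => by rw [← hcomp, mul_inv_cancel, h1]
          map_mul' := hmul x }
      map_one' := by
        ext g
        exact h1 g
      map_mul' := by
        intro x y
        ext g
        exact hcomp x y g }
  have hΦ : ∀ x g, Φ x g = φ x g := fun x g => rfl
  refine ⟨(MulEquiv.ofBijective Φ ⟨?_, ?_⟩).symm⟩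
  · rw [injective_iff_map_eq_one]
    intro x hx
    apply inj x
    · rw [← hΦ, hx]; rfl
    · rw [← hΦ, hx]; rfl
  · intro α
    obtain ⟨x, hxa, hxb⟩ := surj α
    refine ⟨x, ?_⟩
    ext g
    obtain ⟨i, j, rfl⟩ := gen g
    rw [map_mul, map_pow, map_pow, map_mul, map_pow, map_pow, hΦ, hΦ, hxa, hxb]

private def TabA_u (i : Fin 3) : Multiplicative (ZMod 2 × ZMod 2) :=
  if i = 0 then Multiplicative.ofAdd (1, 0)
  else if i = 1 then Multiplicative.ofAdd (0, 1) else Multiplicative.ofAdd (1, 1)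

private def TabA_c22 (σ : Equiv.Perm (Fin 3)) (g : Multiplicative (ZMod 2 × ZMod 2)) :
    Multiplicative (ZMod 2 × ZMod 2) :=
  if g = 1 then 1
  else if g = TabA_u 0 then TabA_u (σ 0)
  else if g = TabA_u 1 then TabA_u (σ 1) else TabA_u (σ 2)

theorem aut_c22 : Nonempty (MulAut (Multiplicative (ZMod 2 × ZMod 2)) ≃* Equiv.Perm (Fin 3)) := by
  refine TabA_iso TabA_c22 (TabA_u 0) (TabA_u 1) (by decide +kernel) (by decide +kernel)
    (by decide +kernel) ?_ (by decide +kernel) ?_
  · have : ∀ g : Multiplicative (ZMod 2 × ZMod 2), ∃ i j : Fin 2,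
        g = TabA_u 0 ^ (i : ℕ) * TabA_u 1 ^ (j : ℕ) := by decide +kernel
    intro g
    obtain ⟨i, j, h⟩ := this g
    exact ⟨i, j, h⟩
  · intro α
    have key : ∀ p q : Multiplicative (ZMod 2 × ZMod 2), p ≠ 1 → q ≠ 1 → p ≠ q →
        ∃ x, TabA_c22 x (TabA_u 0) = p ∧ TabA_c22 x (TabA_u 1) = q := by decide +kernel
    apply key
    · intro h
      rw [map_eq_one_iff α α.injective] at h
      exact absurd h (by decide +kernel)
    · intro h
      rw [map_eq_one_iff α α.injective] at h
      exact absurd h (by decide +kernel)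
    · intro h
      exact absurd (α.injective h) (by decide +kernel)

private def TabA_R4 (g : Multiplicative (ZMod 2 × ZMod 4)) : Multiplicative (ZMod 2 × ZMod 4) :=
  (Multiplicative.ofAdd ((1, 2) : ZMod 2 × ZMod 4)) ^ ((Multiplicative.toAdd g).1.val) *
    (Multiplicative.ofAdd ((1, 1) : ZMod 2 × ZMod 4)) ^ ((Multiplicative.toAdd g).2.val)

private def TabA_S4 (g : Multiplicative (ZMod 2 × ZMod 4)) : Multiplicative (ZMod 2 × ZMod 4) :=
  (Multiplicative.ofAdd ((1, 0) : ZMod 2 × ZMod 4)) ^ ((Multiplicative.toAdd g).1.val) *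
    (Multiplicative.ofAdd ((1, 1) : ZMod 2 × ZMod 4)) ^ ((Multiplicative.toAdd g).2.val)

private def TabA_c24 (x : DihedralGroup 4) (g : Multiplicative (ZMod 2 × ZMod 4)) :
    Multiplicative (ZMod 2 × ZMod 4) :=
  match x with
  | .r i => TabA_R4^[ZMod.val i] g
  | .sr i => TabA_S4 (TabA_R4^[ZMod.val i] g)

theorem aut_c24 : Nonempty (MulAut (Multiplicative (ZMod 2 × ZMod 4)) ≃* DihedralGroup 4) := by
  refine TabA_iso TabA_c24 (Multiplicative.ofAdd (1, 0)) (Multiplicative.ofAdd (0, 1))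
    (by decide +kernel) (by decide +kernel) (by decide +kernel) ?_ (by decide +kernel) ?_
  · have : ∀ g : Multiplicative (ZMod 2 × ZMod 4), ∃ i j : Fin 4,
        g = (Multiplicative.ofAdd ((1, 0) : ZMod 2 × ZMod 4)) ^ (i : ℕ) *
          (Multiplicative.ofAdd ((0, 1) : ZMod 2 × ZMod 4)) ^ (j : ℕ) := by decide +kernel
    intro g
    obtain ⟨i, j, h⟩ := this g
    exact ⟨i, j, h⟩
  · intro α
    have key : ∀ p q : Multiplicative (ZMod 2 × ZMod 4), p ≠ 1 → p ^ 2 = 1 → q ^ 2 ≠ 1 →
        p ≠ q ^ 2 → ∃ x, TabA_c24 x (Multiplicative.ofAdd (1, 0)) = p ∧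
          TabA_c24 x (Multiplicative.ofAdd (0, 1)) = q := by decide +kernel
    apply key
    · intro h
      rw [map_eq_one_iff α α.injective] at h
      exact absurd h (by decide +kernel)
    · rw [← map_pow, map_eq_one_iff α α.injective]
      decide +kernel
    · intro h
      rw [← map_pow, map_eq_one_iff α α.injective] at h
      exact absurd h (by decide +kernel)
    · intro h
      rw [← map_pow] at h
      exact absurd (α.injective h) (by decide +kernel)

private def TabA_R6 (g : Multiplicative (ZMod 2 × ZMod 6)) : Multiplicative (ZMod 2 × ZMod 6) :=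
  (Multiplicative.ofAdd ((0, 3) : ZMod 2 × ZMod 6)) ^ ((Multiplicative.toAdd g).1.val) *
    (Multiplicative.ofAdd ((1, 5) : ZMod 2 × ZMod 6)) ^ ((Multiplicative.toAdd g).2.val)

private def TabA_S6 (g : Multiplicative (ZMod 2 × ZMod 6)) : Multiplicative (ZMod 2 × ZMod 6) :=
  (Multiplicative.ofAdd ((0, 3) : ZMod 2 × ZMod 6)) ^ ((Multiplicative.toAdd g).1.val) *
    (Multiplicative.ofAdd ((1, 4) : ZMod 2 × ZMod 6)) ^ ((Multiplicative.toAdd g).2.val)

private def TabA_c26 (x : DihedralGroup 6) (g : Multiplicative (ZMod 2 × ZMod 6)) :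
    Multiplicative (ZMod 2 × ZMod 6) :=
  match x with
  | .r i => TabA_R6^[ZMod.val i] g
  | .sr i => TabA_S6 (TabA_R6^[ZMod.val i] g)

theorem aut_c26 : Nonempty (MulAut (Multiplicative (ZMod 2 × ZMod 6)) ≃* DihedralGroup 6) := by
  refine TabA_iso TabA_c26 (Multiplicative.ofAdd (1, 0)) (Multiplicative.ofAdd (0, 1))
    (by decide +kernel) (by decide +kernel) (by decide +kernel) ?_ (by decide +kernel) ?_
  · have : ∀ g : Multiplicative (ZMod 2 × ZMod 6), ∃ i j : Fin 6,
        g = (Multiplicative.ofAdd ((1, 0) : ZMod 2 × ZMod 6)) ^ (i : ℕ) *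
          (Multiplicative.ofAdd ((0, 1) : ZMod 2 × ZMod 6)) ^ (j : ℕ) := by decide +kernel
    intro g
    obtain ⟨i, j, h⟩ := this g
    exact ⟨i, j, h⟩
  · intro α
    have key : ∀ p q : Multiplicative (ZMod 2 × ZMod 6), p ≠ 1 → p ^ 2 = 1 → q ^ 2 ≠ 1 →
        q ^ 3 ≠ 1 → p ≠ q ^ 3 → ∃ x, TabA_c26 x (Multiplicative.ofAdd (1, 0)) = p ∧
          TabA_c26 x (Multiplicative.ofAdd (0, 1)) = q := by decide +kernel
    apply key
    · intro h
      rw [map_eq_one_iff α α.injective] at h
      exact absurd h (by decide +kernel)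
    · rw [← map_pow, map_eq_one_iff α α.injective]
      decide +kernel
    · intro h
      rw [← map_pow, map_eq_one_iff α α.injective] at h
      exact absurd h (by decide +kernel)
    · intro h
      rw [← map_pow, map_eq_one_iff α α.injective] at h
      exact absurd h (by decide +kernel)
    · intro h
      rw [← map_pow] at h
      exact absurd (α.injective h) (by decide +kernel)

/-- the unit quaternion attached to a pair of diagonals of the cube -/
private def TabA_U (i j : Fin 4) : QuaternionGroup 2 :=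
  if (i = 0 ∧ j = 1) ∨ (i = 1 ∧ j = 0) then .a 1
  else if (i = 2 ∧ j = 3) ∨ (i = 3 ∧ j = 2) then .a 3
  else if (i = 0 ∧ j = 2) ∨ (i = 2 ∧ j = 0) then .xa 0
  else if (i = 1 ∧ j = 3) ∨ (i = 3 ∧ j = 1) then .xa 2
  else if (i = 0 ∧ j = 3) ∨ (i = 3 ∧ j = 0) then .xa 3
  else .xa 1

private def TabA_q8 (σ : Equiv.Perm (Fin 4)) (g : QuaternionGroup 2) : QuaternionGroup 2 :=
  if g = .a 0 then .a 0
  else if g = .a 2 then .a 2
  else
    let e : QuaternionGroup 2 :=
      if g = .a 1 then TabA_U (σ 0) (σ 1)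
      else if g = .a 3 then TabA_U (σ 2) (σ 3)
      else if g = .xa 0 then TabA_U (σ 0) (σ 2)
      else if g = .xa 2 then TabA_U (σ 1) (σ 3)
      else if g = .xa 3 then TabA_U (σ 0) (σ 3)
      else TabA_U (σ 1) (σ 2)
    if Equiv.Perm.sign σ = 1 then e else e⁻¹

theorem aut_q8 : Nonempty (MulAut (QuaternionGroup 2) ≃* Equiv.Perm (Fin 4)) := by
  refine TabA_iso TabA_q8 (.a 1) (.xa 0) (by decide +kernel) (by decide +kernel)
    (by decide +kernel) ?_ (by decide +kernel) ?_
  · have : ∀ g : QuaternionGroup 2, ∃ i : Fin 4, ∃ j : Fin 2,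
        g = (.a 1 : QuaternionGroup 2) ^ (i : ℕ) * (.xa 0 : QuaternionGroup 2) ^ (j : ℕ) := by
      decide +kernel
    intro g
    obtain ⟨i, j, h⟩ := this g
    exact ⟨i, j, h⟩
  · intro α
    have key : ∀ p q : QuaternionGroup 2, p ^ 2 ≠ 1 → q ^ 2 ≠ 1 → p ≠ q → p ≠ q ^ 3 →
        ∃ x, TabA_q8 x (.a 1) = p ∧ TabA_q8 x (.xa 0) = q := by decide +kernel
    apply key
    · intro h
      rw [← map_pow, map_eq_one_iff α α.injective] at h
      exact absurd h (by decide +kernel)
    · intro h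
      rw [← map_pow, map_eq_one_iff α α.injective] at h
      exact absurd h (by decide +kernel)
    · intro h
      exact absurd (α.injective h) (by decide +kernel)
    · intro h
      rw [← map_pow] at h
      exact absurd (α.injective h) (by decide +kernel)

end Pool.Agent.SHAJ
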