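import Mathlib
import Pool.Agent.SHAJ.Defs

set_option autoImplicit false

/-!
Automorphism groups of some small groups (module TABB).
-/

namespace Pool.Agent.SHAJ

open Pool.Agent.SHAF

/-- an injective homomorphism to the automorphism group which is transitive on the possible images of two
generators -/
private theorem tabb_equiv {S G : Type} [Group S] [Group G] (φ : S →* MulAut G) (hinj : Function.Injective φ)
    (a b : G) (P : G → G → Prop) (hP : ∀ α : MulAut G, P (α a) (α b))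
    (hex : ∀ x y, P x y → ∃ s, φ s a = x ∧ φ s b = y) (hgen : ∀ g : G, g ∈ Subgroup.closure ({a, b} : Set G)) :
    Nonempty (MulAut G ≃* S) := by
  have hsurj : Function.Surjective φ := by
    intro α
    obtain ⟨s, h1, h2⟩ := hex _ _ (hP α)
    refine ⟨s, ?_⟩
    have h3 : (φ s : G ≃* G).toMonoidHom = (α : G ≃* G).toMonoidHom := by
      refine MonoidHom.eq_of_eqOn_dense (s := ({a, b} : Set G)) ((Subgroup.eq_top_iff' _).2 hgen) ?_
      intro x hx
      rcases hx with hx | hx
      · rw [hx]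
        exact h1
      · rw [Set.mem_singleton_iff.1 hx]
        exact h2
    ext g
    exact DFunLike.congr_fun h3 g
  exact ⟨(MulEquiv.ofBijective φ ⟨hinj, hsurj⟩).symm⟩

private theorem tabb_ne {G : Type} [Group G] (α : MulAut G) {x : G} (h : x ≠ 1) : α x ≠ 1 := by
  intro h1
  apply h
  apply α.injective
  rw [h1, map_one]

private theorem tabb_s3 : ∀ x y : Equiv.Perm (Fin 3), (x * x = 1 ∧ x ≠ 1 ∧ y * y * y = 1 ∧ y ≠ 1) →
    ∃ s : Equiv.Perm (Fin 3), s * Equiv.swap 0 1 * s⁻¹ = x ∧ s * finRotate 3 * s⁻¹ = y := by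
  decide +kernel

private theorem tabb_s3g : ∀ g : Equiv.Perm (Fin 3), ∃ i : Fin 2, ∃ j : Fin 3,
    g = (Equiv.swap 0 1) ^ (i : ℕ) * (finRotate 3) ^ (j : ℕ) := by
  decide +kernel

theorem aut_s3 : Nonempty (MulAut (Equiv.Perm (Fin 3)) ≃* Equiv.Perm (Fin 3)) := by
  refine tabb_equiv (MulAut.conj (G := Equiv.Perm (Fin 3))) ?_ (Equiv.swap 0 1) (finRotate 3)
    (fun x y => x * x = 1 ∧ x ≠ 1 ∧ y * y * y = 1 ∧ y ≠ 1) ?_ ?_ ?_
  · rw [injective_iff_map_eq_one]
    have h : ∀ s : Equiv.Perm (Fin 3), (∀ g, s * g * s⁻¹ = g) → s = 1 := by decide +kernel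
    intro s hs
    exact h s fun g => DFunLike.congr_fun hs g
  · intro α
    refine ⟨?_, tabb_ne α (by decide +kernel), ?_, tabb_ne α (by decide +kernel)⟩
    · rw [← map_mul, ← map_one α]
      congr 1
      decide +kernel
    · rw [← map_mul, ← map_mul, ← map_one α]
      congr 1
      decide +kernel
  · intro x y h
    exact tabb_s3 x y h
  · intro g
    obtain ⟨i, j, rfl⟩ := tabb_s3g g
    exact Subgroup.mul_mem _ (Subgroup.pow_mem _ (Subgroup.subset_closure (by simp)) _)
      (Subgroup.pow_mem _ (Subgroup.subset_closure (by simp)) _)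

private theorem tabb_s4 : ∀ x : Equiv.Perm (Fin 4), (x * x = 1 ∧ x ≠ 1) → ∀ y : Equiv.Perm (Fin 4),
    (y * y ≠ 1 ∧ y * y * (y * y) = 1 ∧ x * y * (x * y) * (x * y) = 1) →
    ∃ s : Equiv.Perm (Fin 4), s * Equiv.swap 0 1 * s⁻¹ = x ∧ s * finRotate 4 * s⁻¹ = y := by
  decide +kernel

private theorem tabb_s4g : ∀ g : Equiv.Perm (Fin 4), ∃ i j k l : Fin 4, ∃ m : Fin 2,
    g = (finRotate 4) ^ (i : ℕ) * (Equiv.swap 0 1) ^ (m : ℕ) * (finRotate 4) ^ (j : ℕ) *
      (Equiv.swap 0 1) ^ (l : ℕ) * (finRotate 4) ^ (k : ℕ) := by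
  decide +kernel

theorem aut_s4 : Nonempty (MulAut (Equiv.Perm (Fin 4)) ≃* Equiv.Perm (Fin 4)) := by
  refine tabb_equiv (MulAut.conj (G := Equiv.Perm (Fin 4))) ?_ (Equiv.swap 0 1) (finRotate 4)
    (fun x y => (x * x = 1 ∧ x ≠ 1) ∧ (y * y ≠ 1 ∧ y * y * (y * y) = 1 ∧ x * y * (x * y) * (x * y) = 1)) ?_ ?_ ?_
  · rw [injective_iff_map_eq_one]
    have h : ∀ s : Equiv.Perm (Fin 4), (∀ g, s * g * s⁻¹ = g) → s = 1 := by decide +kernel
    intro s hs
    exact h s fun g => DFunLike.congr_fun hs g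
  · intro α
    refine ⟨⟨?_, tabb_ne α (by decide +kernel)⟩, ?_, ?_, ?_⟩
    · rw [← map_mul, ← map_one α]
      congr 1
      decide +kernel
    · rw [← map_mul]
      exact tabb_ne α (by decide +kernel)
    · simp only [← map_mul]
      rw [← map_one α]
      congr 1
      decide +kernel
    · simp only [← map_mul]
      rw [← map_one α]
      congr 1
      decide +kernel
  · intro x y h
    exact tabb_s4 x h.1 y h.2
  · intro g
    obtain ⟨i, j, k, l, m, rfl⟩ := tabb_s4g g
    have ha : (Equiv.swap 0 1 : Equiv.Perm (Fin 4)) ∈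
        Subgroup.closure ({Equiv.swap 0 1, finRotate 4} : Set (Equiv.Perm (Fin 4))) :=
      Subgroup.subset_closure (by simp)
    have hb : (finRotate 4 : Equiv.Perm (Fin 4)) ∈
        Subgroup.closure ({Equiv.swap 0 1, finRotate 4} : Set (Equiv.Perm (Fin 4))) :=
      Subgroup.subset_closure (by simp)
    exact Subgroup.mul_mem _ (Subgroup.mul_mem _ (Subgroup.mul_mem _ (Subgroup.mul_mem _
      (Subgroup.pow_mem _ hb _) (Subgroup.pow_mem _ ha _)) (Subgroup.pow_mem _ hb _))
      (Subgroup.pow_mem _ ha _)) (Subgroup.pow_mem _ hb _)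

/-- the element `(0 1)(2 3)` -/
private def tabbV : alternatingGroup (Fin 4) := ⟨Equiv.swap 0 1 * Equiv.swap 2 3, Equiv.Perm.mem_alternatingGroup.2 (by decide +kernel)⟩

/-- the element `(0 1)(1 2)` of order three -/
private def tabbB : alternatingGroup (Fin 4) := ⟨Equiv.swap 0 1 * Equiv.swap 1 2, Equiv.Perm.mem_alternatingGroup.2 (by decide +kernel)⟩

private theorem tabb_a4 : ∀ x y : alternatingGroup (Fin 4), (x * x = 1 ∧ x ≠ 1 ∧ y * y * y = 1 ∧ y ≠ 1) →
    ∃ s : Equiv.Perm (Fin 4), s * (tabbV : Equiv.Perm (Fin 4)) * s⁻¹ = x ∧ s * (tabbB : Equiv.Perm (Fin 4)) * s⁻¹ = y := by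
  decide +kernel

private theorem tabb_a4g : ∀ g : alternatingGroup (Fin 4), ∃ i : Fin 3, ∃ j : Fin 2, ∃ k : Fin 3,
    g = tabbB ^ (i : ℕ) * tabbV ^ (j : ℕ) * tabbB ^ (k : ℕ) := by
  decide +kernel

theorem aut_a4 : Nonempty (MulAut (alternatingGroup (Fin 4)) ≃* Equiv.Perm (Fin 4)) := by
  refine tabb_equiv (MulAut.conjNormal (G := Equiv.Perm (Fin 4)) (H := alternatingGroup (Fin 4))) ?_ tabbV tabbB
    (fun x y => x * x = 1 ∧ x ≠ 1 ∧ y * y * y = 1 ∧ y ≠ 1) ?_ ?_ ?_
  · rw [injective_iff_map_eq_one]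
    have h : ∀ s : Equiv.Perm (Fin 4), (s * (tabbV : Equiv.Perm (Fin 4)) * s⁻¹ = tabbV ∧
      s * (tabbB : Equiv.Perm (Fin 4)) * s⁻¹ = tabbB) → s = 1 := by decide +kernel
    intro s hs
    refine h s ⟨?_, ?_⟩
    · rw [← MulAut.conjNormal_apply s tabbV, hs]
      rfl
    · rw [← MulAut.conjNormal_apply s tabbB, hs]
      rfl
  · intro α
    refine ⟨?_, tabb_ne α (by decide +kernel), ?_, tabb_ne α (by decide +kernel)⟩
    · rw [← map_mul, ← map_one α]
      congr 1
      decide +kernel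
    · rw [← map_mul, ← map_mul, ← map_one α]
      congr 1
      decide +kernel
  · intro x y h
    obtain ⟨s, h1, h2⟩ := tabb_a4 x y h
    refine ⟨s, ?_, ?_⟩
    · apply Subtype.ext
      rw [MulAut.conjNormal_apply]
      exact h1
    · apply Subtype.ext
      rw [MulAut.conjNormal_apply]
      exact h2
  · intro g
    obtain ⟨i, j, k, rfl⟩ := tabb_a4g g
    have ha : tabbV ∈ Subgroup.closure ({tabbV, tabbB} : Set (alternatingGroup (Fin 4))) :=
      Subgroup.subset_closure (by simp)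
    have hb : tabbB ∈ Subgroup.closure ({tabbV, tabbB} : Set (alternatingGroup (Fin 4))) :=
      Subgroup.subset_closure (by simp)
    exact Subgroup.mul_mem _ (Subgroup.mul_mem _ (Subgroup.pow_mem _ hb _) (Subgroup.pow_mem _ ha _))
      (Subgroup.pow_mem _ hb _)

/-- the action of the dihedral group of order eight on itself by automorphisms -/
private def tabbD : DihedralGroup 4 → DihedralGroup 4 → DihedralGroup 4
  | .r _, .r k => .r k
  | .r i, .sr k => .sr (i + k)
  | .sr _, .r k => .r (-k)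
  | .sr i, .sr k => .sr (-i - k)

private theorem tabbD_mul : ∀ x u v : DihedralGroup 4, tabbD x (u * v) = tabbD x u * tabbD x v := by
  decide +kernel

private theorem tabbD_act : ∀ x y u : DihedralGroup 4, tabbD (x * y) u = tabbD x (tabbD y u) := by
  decide +kernel

private theorem tabbD_one : ∀ u : DihedralGroup 4, tabbD 1 u = u := by
  decide +kernel

/-- the same as a homomorphism -/
private def tabbDH : DihedralGroup 4 →* MulAut (DihedralGroup 4) where
  toFun x :=
    { toFun := tabbD x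
      invFun := tabbD x⁻¹
      left_inv := fun u => by rw [← tabbD_act, inv_mul_cancel, tabbD_one]
      right_inv := fun u => by rw [← tabbD_act, mul_inv_cancel, tabbD_one]
      map_mul' := tabbD_mul x }
  map_one' := by
    ext u
    exact tabbD_one u
  map_mul' x y := by
    ext u
    exact tabbD_act x y u

private theorem tabb_d8 : ∀ x y : DihedralGroup 4, (x * x ≠ 1 ∧ y * y = 1 ∧ x * y ≠ y * x) →
    ∃ s : DihedralGroup 4, tabbD s (.r 1) = x ∧ tabbD s (.sr 0) = y := by
  decide +kernel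

private theorem tabb_d8g : ∀ g : DihedralGroup 4, ∃ i : Fin 4, ∃ j : Fin 2,
    g = (DihedralGroup.r 1) ^ (i : ℕ) * (DihedralGroup.sr 0) ^ (j : ℕ) := by
  decide +kernel

theorem aut_d8 : Nonempty (MulAut (DihedralGroup 4) ≃* DihedralGroup 4) := by
  refine tabb_equiv tabbDH ?_ (.r 1) (.sr 0)
    (fun x y => x * x ≠ 1 ∧ y * y = 1 ∧ x * y ≠ y * x) ?_ ?_ ?_
  · rw [injective_iff_map_eq_one]
    have h : ∀ s : DihedralGroup 4, (∀ g, tabbD s g = g) → s = 1 := by decide +kernel
    intro s hs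
    exact h s fun g => DFunLike.congr_fun hs g
  · intro α
    refine ⟨?_, ?_, ?_⟩
    · rw [← map_mul]
      exact tabb_ne α (by decide +kernel)
    · rw [← map_mul, ← map_one α]
      congr 1
    · rw [← map_mul, ← map_mul]
      intro h
      exact absurd (α.injective h) (by decide +kernel)
  · intro x y h
    exact tabb_d8 x y h
  · intro g
    obtain ⟨i, j, rfl⟩ := tabb_d8g g
    exact Subgroup.mul_mem _ (Subgroup.pow_mem _ (Subgroup.subset_closure (by simp)) _)
      (Subgroup.pow_mem _ (Subgroup.subset_closure (by simp)) _)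

end Pool.Agent.SHAJ
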