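import Mathlib
import Pool.Agent.SHAF.ListAut4
import Pool.Agent.SHAJ.Defs

set_option autoImplicit false

/-!
The group `SL(2,3)` (module TABC).
-/

namespace Pool.Agent.SHAJ

open Pool.Agent.SHAF Pool.Agent.SHA

theorem bintet_q8 {G : Type} [Group G] (h : BinTet G) :
    ∃ f : QuaternionGroup 2 →* G, Function.Injective f := by
  obtain ⟨_, Q, _, ⟨e⟩, _⟩ := h
  exact ⟨Q.subtype.comp e.symm.toMonoidHom, Q.subtype_injective.comp e.symm.injective⟩

private theorem tabc_q8 :
    ∃ f : MulAut (QuaternionGroup 2) →* Equiv.Perm (Fin 4), Function.Injective f := by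
  have hconj : ∀ (α : MulAut (QuaternionGroup 2)) (g : QuaternionGroup 2),
      α * MulAut.conj g * α⁻¹ = MulAut.conj (α g) := by
    intro α g
    ext x
    change α (g * α.symm x * g⁻¹) = α g * x * (α g)⁻¹
    rw [map_mul, map_mul, map_inv, MulEquiv.apply_symm_apply]
  haveI hn : (MulAut.conj : QuaternionGroup 2 →* MulAut (QuaternionGroup 2)).range.Normal := by
    constructor
    rintro _ ⟨g, rfl⟩ α
    exact ⟨α g, (hconj α g).symm⟩
  refine klein_embed (MulAut.conj : QuaternionGroup 2 →* MulAut (QuaternionGroup 2)).range ?_ ?_ ?_ ?_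
  · have h1 := (MulAut.conj : QuaternionGroup 2 →* MulAut (QuaternionGroup 2)).ker.card_mul_index
    rw [Subgroup.index_ker] at h1
    have h2 : Nat.card (MulAut.conj : QuaternionGroup 2 →* MulAut (QuaternionGroup 2)).ker =
        Nat.card {s : QuaternionGroup 2 // s = 1 ∨ s = QuaternionGroup.a 2} := by
      apply Nat.card_congr
      apply Equiv.subtypeEquivRight
      intro s
      rw [← q8_conj_ne, MonoidHom.mem_ker]
      constructor
      · intro h g
        exact DFunLike.congr_fun h g
      · intro h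
        ext g
        exact h g
    have h3 : Nat.card {s : QuaternionGroup 2 // s = 1 ∨ s = QuaternionGroup.a 2} = 2 := by
      rw [Nat.card_eq_fintype_card]
      decide
    have h4 : Nat.card (QuaternionGroup 2) = 8 := by
      rw [Nat.card_eq_fintype_card, QuaternionGroup.card]
    rw [h2, h3, h4] at h1
    omega
  · rintro _ ⟨g, rfl⟩
    ext x
    exact q8_sq g x
  · intro α hα
    rw [Subgroup.mem_centralizer_iff] at hα
    have h1 : ∀ g x, α g * x * (α g)⁻¹ = g * x * g⁻¹ := by
      intro g x
      have h2 := hα (MulAut.conj g) ⟨g, rfl⟩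
      have h3 : MulAut.conj (α g) = MulAut.conj g := by
        rw [← hconj, ← h2]
        group
      exact DFunLike.congr_fun h3 x
    obtain ⟨g, hg1, hg2⟩ := q8_inner _ _ (q8_cen.1 _ (h1 (QuaternionGroup.a 1)))
      (q8_cen.2 _ (h1 (QuaternionGroup.xa 0)))
    refine ⟨g, ?_⟩
    have hg1' : MulAut.conj g (QuaternionGroup.a 1) = α (QuaternionGroup.a 1) := hg1
    have hg2' : MulAut.conj g (QuaternionGroup.xa 0) = α (QuaternionGroup.xa 0) := hg2
    ext x
    obtain ⟨k, hk | hk⟩ := q8_gen x
    · rw [hk, map_pow, map_pow, hg1']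
    · rw [hk, map_mul, map_mul, map_pow, map_pow, hg1', hg2']
  · have h1 : orderOf aut8 = 3 := by
      haveI : Fact (Nat.Prime 3) := ⟨Nat.prime_three⟩
      apply orderOf_eq_prime
      · ext x
        exact sg8_3 x
      · intro h
        have h2 : sg8 (QuaternionGroup.a 1) = QuaternionGroup.a 1 :=
          DFunLike.congr_fun h (QuaternionGroup.a 1)
        exact absurd h2 (by decide)
    rw [← h1]
    exact orderOf_dvd_natCard _

theorem bintet_aut {G : Type} [Group G] (h : BinTet G) :
    ∃ f : MulAut G →* Equiv.Perm (Fin 4), Function.Injective f := by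
  obtain ⟨Q, z, x, hQn, ⟨e⟩, hQc, hQi, hzQ, hz1, hz2, hsq, hinv, hcm, hzc, hx, hC⟩ := bt_data h
  haveI : Finite G := Nat.finite_of_card_ne_zero (by rw [h.1]; norm_num)
  have hx3 : x ^ 3 = 1 := by rw [← hx]; exact pow_orderOf_eq_one x
  have hxQ : x ∉ Q := by
    intro hxm
    have h5 := Subgroup.orderOf_dvd_natCard Q hxm
    rw [hx, hQc] at h5
    norm_num at h5
  have hchar : ∀ (α : MulAut G), ∀ s ∈ Q, α s ∈ Q := by
    intro α s hs
    have h3 : orderOf (α s) ∣ 8 := by
      have : orderOf (α s) = orderOf s := orderOf_injective α.toMonoidHom α.injective s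
      rw [this, ← hQc]
      exact Subgroup.orderOf_dvd_natCard Q hs
    have h4 : orderOf (QuotientGroup.mk' Q (α s)) ∣ 8 := (orderOf_map_dvd _ _).trans h3
    have h5 : orderOf (QuotientGroup.mk' Q (α s)) ∣ 3 := by
      rw [← hQi]
      exact orderOf_dvd_natCard _
    have h6 : orderOf (QuotientGroup.mk' Q (α s)) = 1 :=
      Nat.Coprime.eq_one_of_dvd (Nat.Coprime.coprime_dvd_left h4 (by norm_num)) h5
    rw [orderOf_eq_one_iff] at h6
    exact (QuotientGroup.eq_one_iff _).mp h6
  let ρ : MulAut G →* MulAut Q :=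
    { toFun := fun α =>
        { toFun := fun n => ⟨α n, hchar α n n.2⟩
          invFun := fun n => ⟨α.symm n, hchar α.symm n n.2⟩
          left_inv := fun n => by simp
          right_inv := fun n => by simp
          map_mul' := fun a b => Subtype.ext (by simp) }
      map_one' := rfl
      map_mul' := fun _ _ => rfl }
  suffices hρ : Function.Injective ρ by
    obtain ⟨f, hf⟩ := tabc_q8
    exact ⟨(f.comp (MulAut.congr e).toMonoidHom).comp ρ,
      (hf.comp (MulAut.congr e).injective).comp hρ⟩
  rw [injective_iff_map_eq_one]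
  intro α hα
  have hfix : ∀ s ∈ Q, α s = s := fun s hs =>
    congrArg Subtype.val (DFunLike.congr_fun hα ⟨s, hs⟩)
  have hαx : α x = x := by
    have h7 : x⁻¹ * α x ∈ Subgroup.centralizer (Q : Set G) := by
      rw [Subgroup.mem_centralizer_iff]
      intro v hv
      have h8 := hfix _ (hQn.conj_mem v hv x)
      rw [map_mul, map_mul, map_inv, hfix v hv] at h8
      have h9 := congrArg (fun y => x⁻¹ * y * α x) h8
      simp only [mul_assoc, inv_mul_cancel, mul_one, inv_mul_cancel_left] at h9
      rw [mul_assoc, h9]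
    have h8 : x⁻¹ * α x ∈ Q := hC h7
    have h9 : (x⁻¹ * α x) * (x⁻¹ * α x) = 1 := by
      have h10 := q8_cen2 (e ⟨_, h8⟩) (by
        intro s
        obtain ⟨s', rfl⟩ := e.surjective s
        rw [← map_mul, ← map_mul]
        congr 1
        exact Subtype.ext ((Subgroup.mem_centralizer_iff.mp h7) s' s'.2))
      rw [← map_mul, ← map_one e] at h10
      exact congrArg Subtype.val (e.injective h10)
    rcases hinv _ h8 h9 with h10 | h10
    · exact (inv_mul_eq_one.mp h10).symm
    · exfalso
      have h11 : α x = x * z := by rw [← h10, mul_inv_cancel_left]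
      have h12 : (α x) ^ 3 = 1 := by rw [← map_pow, hx3, map_one]
      have h13 : Commute x z := hzc x
      rw [h11, h13.mul_pow, hx3, one_mul] at h12
      have h14 : z ^ 3 = z * z * z := by
        simp only [pow_succ, pow_zero, one_mul]
      rw [h14, hz2, one_mul] at h12
      exact hz1 h12
  let F : Subgroup G := MonoidHom.eqLocus α.toMonoidHom (MonoidHom.id G)
  have hQF : Q ≤ F := fun s hs => hfix s hs
  have hxF : x ∈ F := hαx
  have hFi : F.index ∣ 3 := hQi ▸ Subgroup.index_dvd_of_le hQF
  rcases (Nat.dvd_prime Nat.prime_three).mp hFi with h5 | h5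
  · refine MulEquiv.ext fun g => ?_
    have h6 : g ∈ F := by
      rw [Subgroup.index_eq_one.mp h5]
      exact Subgroup.mem_top g
    exact h6
  · exfalso
    have h6 : Q = F := by
      apply Subgroup.eq_of_le_of_card_ge hQF
      have h7 := F.card_mul_index
      have h8 := Q.card_mul_index
      rw [h5] at h7
      rw [hQi] at h8
      omega
    exact hxQ (h6 ▸ hxF)

end Pool.Agent.SHAJ
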