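import Mathlib
import Pool.Agent.SHAJ.Defs
import Pool.Agent.SHAN.Main

set_option autoImplicit false

/-!
The nonsoluble groups (module TABD).
-/

namespace Pool.Agent.SHAJ

open Pool.Agent.SHAF

/-- two finite groups embedded in each other -/
theorem tabd_iso {A P : Type} [Group A] [Group P] [Finite P] (f : A →* P)
    (hf : Function.Injective f) (g : P →* A) (hg : Function.Injective g) : Nonempty (A ≃* P) := by
  have h1 : Function.Injective (f.comp g) := hf.comp hg
  have h2 : Function.Surjective (f.comp g) := Finite.surjective_of_injective h1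
  have h3 : Function.Surjective f := by
    intro x
    obtain ⟨y, hy⟩ := h2 x
    exact ⟨g y, hy⟩
  exact ⟨MulEquiv.ofBijective f ⟨hf, h3⟩⟩

theorem aut_a5_iso : Nonempty (MulAut (alternatingGroup (Fin 5)) ≃* Equiv.Perm (Fin 5)) := by
  obtain ⟨f, hf⟩ := aut_a5
  refine tabd_iso f hf (MulAut.conjNormal (H := alternatingGroup (Fin 5))) ?_
  rw [injective_iff_map_eq_one]
  intro z hz
  apply a5_facts.2.2.2.2.2
  intro g hg
  have h1 := congrArg (fun p : MulAut (alternatingGroup (Fin 5)) =>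
    ((p ⟨g, hg⟩ : alternatingGroup (Fin 5)) : Equiv.Perm (Fin 5))) hz
  have h2 : z * g * z⁻¹ = g := h1
  calc z * g = z * g * z⁻¹ * z := by group
    _ = g * z := by rw [h2]

theorem aut_s5_iso : Nonempty (MulAut (Equiv.Perm (Fin 5)) ≃* Equiv.Perm (Fin 5)) := by
  obtain ⟨f, hf⟩ := aut_a5
  obtain ⟨g, hg⟩ := aut_s5
  refine tabd_iso (f.comp g) (hf.comp hg) (MulAut.conj (G := Equiv.Perm (Fin 5))) ?_
  rw [injective_iff_map_eq_one]
  intro z hz
  apply a5_facts.2.2.2.2.2
  intro k _
  have h1 := congrArg (fun p : MulAut (Equiv.Perm (Fin 5)) => p k) hz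
  have h2 : z * k * z⁻¹ = k := h1
  calc z * k = z * k * z⁻¹ * z := by group
    _ = k * z := by rw [h2]

theorem aut_bi_emb {G : Type} [Group G] (h : BinIco G) :
    ∃ f : MulAut G →* Equiv.Perm (Fin 5), Function.Injective f := by
  obtain ⟨f, hf⟩ := aut_a5
  obtain ⟨g, hg⟩ := aut_binico h
  exact ⟨f.comp g, hf.comp hg⟩

end Pool.Agent.SHAJ
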