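import Mathlib
import Pool.Agent.SHAJ.Defs
import Pool.Agent.SHAF.ListAut4

set_option autoImplicit false

/-!
The subgroups of the symmetric group of degree 4 (module TABS).
-/

namespace Pool.Agent.SHAJ

open Pool.Agent.SHAF

private lemma tabs_six {G : Type} [Group G] [Finite G] (h6 : Nat.card G = 6)
    (hn : ¬ IsCyclic G) : Nonempty (G ≃* Equiv.Perm (Fin 3)) := by
  haveI : Fact (Nat.Prime 2) := ⟨Nat.prime_two⟩
  haveI : Fact (Nat.Prime 3) := ⟨Nat.prime_three⟩
  obtain ⟨b, hb⟩ := exists_prime_orderOf_dvd_card' (G := G) 2 (by rw [h6]; norm_num)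
  obtain ⟨a, ha⟩ := exists_prime_orderOf_dvd_card' (G := G) 3 (by rw [h6]; norm_num)
  have hb1 : b ≠ 1 := by
    rintro rfl
    rw [orderOf_one] at hb
    omega
  have hmem : ∀ g ∈ Subgroup.zpowers b, g = 1 ∨ g = b := by
    intro g hg
    obtain ⟨k, rfl⟩ := Subgroup.mem_zpowers_iff.mp hg
    rw [← zpow_mod_orderOf, hb]
    have : k % ((2 : ℕ) : ℤ) = 0 ∨ k % ((2 : ℕ) : ℤ) = 1 := by omega
    rcases this with h | h <;> rw [h]
    · left; exact zpow_zero b
    · right; exact zpow_one b
  have hH : Nat.card (Subgroup.zpowers b) = 2 := by rw [Nat.card_zpowers, hb]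
  have hidx : (Subgroup.zpowers b).index = 3 := by
    have := (Subgroup.zpowers b).card_mul_index
    rw [hH, h6] at this
    omega
  have hcard : Nat.card (G ⧸ Subgroup.zpowers b) = 3 := hidx
  have hcore : (Subgroup.zpowers b).normalCore = ⊥ := by
    rw [eq_bot_iff]
    intro g hg
    rw [Subgroup.mem_bot]
    rcases hmem g (Subgroup.normalCore_le _ hg) with h | h
    · exact h
    · exfalso
      rw [h] at hg
      have hcen : ∀ x : G, x * b = b * x := by
        intro x
        have h1 := (Subgroup.zpowers b).normalCore_normal.conj_mem b hg x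
        rcases hmem _ (Subgroup.normalCore_le _ h1) with h2 | h2
        · exfalso
          apply hb1
          have h3 : b = x⁻¹ * (x * b * x⁻¹) * x := by group
          rw [h3, h2]
          group
        · exact mul_inv_eq_iff_eq_mul.mp h2
      have hc : Commute a b := hcen a
      have ho : orderOf (a * b) = 6 := by
        rw [hc.orderOf_mul_eq_mul_orderOf_of_coprime (by rw [ha, hb]; norm_num), ha, hb]
      exact hn (isCyclic_of_orderOf_eq_card (a * b) (by rw [ho, h6]))
  have hinj : Function.Injective (MulAction.toPermHom G (G ⧸ Subgroup.zpowers b)) := by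
    rw [← MonoidHom.ker_eq_bot_iff, ← Subgroup.normalCore_eq_ker]
    exact hcore
  let e : (G ⧸ Subgroup.zpowers b) ≃ Fin 3 := Finite.equivFinOfCardEq hcard
  let f : G →* Equiv.Perm (Fin 3) :=
    e.permCongrHom.toMonoidHom.comp (MulAction.toPermHom G (G ⧸ Subgroup.zpowers b))
  have hf : Function.Injective f := e.permCongrHom.injective.comp hinj
  have hbij : Function.Bijective f := by
    refine Function.Injective.bijective_of_nat_card_le hf ?_
    rw [h6, Nat.card_eq_fintype_card, Fintype.card_perm, Fintype.card_fin]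
    decide
  exact ⟨MulEquiv.ofBijective f hbij⟩

private lemma tabs_four {G : Type} [Group G] [Finite G] (h4 : Nat.card G = 4)
    (hn : ¬ IsCyclic G) : Nonempty (G ≃* Multiplicative (ZMod 2 × ZMod 2)) := by
  have hsq : ∀ g : G, g ^ 2 = 1 := by
    intro g
    have h1 : orderOf g ∣ 4 := h4 ▸ orderOf_dvd_natCard g
    have h2 : orderOf g ≠ 4 := fun h => hn (isCyclic_of_orderOf_eq_card g (by rw [h, h4]))
    have key : ∀ m ≤ 4, m ∣ 4 → m ≠ 4 → m ∣ 2 := by decide
    exact orderOf_dvd_iff_pow_eq_one.mp (key _ (Nat.le_of_dvd (by norm_num) h1) h1 h2)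
  haveI : IsKleinFour G := by
    refine ⟨h4, ?_⟩
    rcases (Nat.dvd_prime Nat.prime_two).mp (Monoid.exponent_dvd_of_forall_pow_eq_one hsq) with
      h | h
    · exfalso
      have hs := Monoid.exp_eq_one_iff.mp h
      have := Finite.card_le_one_iff_subsingleton.mpr hs
      omega
    · exact h
  exact IsKleinFour.nonempty_mulEquiv

theorem sub_s4 {G : Type} [Group G] (f : G →* Equiv.Perm (Fin 4)) (hf : Function.Injective f) :
    IsCyclic G ∨ Nonempty (G ≃* Multiplicative (ZMod 2 × ZMod 2)) ∨
      Nonempty (G ≃* Equiv.Perm (Fin 3)) ∨ Nonempty (G ≃* DihedralGroup 4) ∨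
      Nonempty (G ≃* alternatingGroup (Fin 4)) ∨ Nonempty (G ≃* Equiv.Perm (Fin 4)) := by
  haveI : Finite G := Finite.of_injective f hf
  have hdvd : Nat.card G ∣ 24 := perm4_card ▸ Subgroup.card_dvd_of_injective f hf
  have hcases : Nat.card G ≤ 3 ∨ Nat.card G = 4 ∨ Nat.card G = 6 ∨ Nat.card G = 8 ∨
      Nat.card G = 12 ∨ Nat.card G = 24 := by
    have key : ∀ m ≤ 24, m ∣ 24 → m ≤ 3 ∨ m = 4 ∨ m = 6 ∨ m = 8 ∨ m = 12 ∨ m = 24 := by decide
    exact key _ (Nat.le_of_dvd (by norm_num) hdvd) hdvd
  have hrc : Nat.card f.range = Nat.card G :=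
    (Nat.card_congr (MonoidHom.ofInjective hf).toEquiv).symm
  by_cases hc : IsCyclic G
  · exact Or.inl hc
  right
  rcases hcases with h | h | h | h | h | h
  · exact absurd (cyc_of_le3 h) hc
  · exact Or.inl (tabs_four h hc)
  · exact Or.inr (Or.inl (tabs_six h hc))
  · exact Or.inr (Or.inr (Or.inl (perm4_ord8 f hf h)))
  · have h1 : f.range.index = 2 := by
      have h2 := f.range.card_mul_index
      rw [hrc, h, perm4_card] at h2
      omega
    have h2 := Equiv.Perm.eq_alternatingGroup_of_index_eq_two h1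
    exact Or.inr (Or.inr (Or.inr (Or.inl
      ⟨(MonoidHom.ofInjective hf).trans (MulEquiv.subgroupCongr h2)⟩)))
  · have hb : Function.Bijective f :=
      Function.Injective.bijective_of_nat_card_le hf (by rw [perm4_card, h])
    exact Or.inr (Or.inr (Or.inr (Or.inr ⟨MulEquiv.ofBijective f hb⟩)))

end Pool.Agent.SHAJ
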