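import Mathlib
import Pool.Agent.SHAJ.Impl
import Pool.Agent.SHAJ.TabA
import Pool.Agent.SHAJ.TabB
import Pool.Agent.SHAJ.TabS
import Pool.Agent.SHAJ.TabC
import Pool.Agent.SHAJ.TabD
import Pool.Agent.SHAJ.MetC
import Pool.Agent.SHAJ.NecA
import Pool.Agent.SHAJ.NecB
import Pool.Agent.SHAJ.NecC

set_option autoImplicit false

/-!
Closure under automorphism groups within the list.
-/

namespace Pool.Agent.SHAJ

open Pool.Agent.SHAF

variable {K : (G : Type) → [Group G] → Prop}

lemma card_cy (n : ℕ) : Nat.card (Cy n) = n := by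
  show Nat.card (ZMod n) = n
  exact Nat.card_zmod n

lemma cyc_aut {G : Type} [Group G] [Finite G] (h : IsCyclic G) {n : ℕ} (hn : Nat.card G = n) :
    Nonempty (MulAut G ≃* (ZMod n)ˣ) := by
  subst hn
  exact ⟨IsCyclic.mulAutMulEquiv G⟩

lemma iso_mem (hsub : ∀ (G H : Type) [Group G] [Group H] (f : H →* G),
    Function.Injective f → K G → K H) {G H : Type} [Group G] [Group H] (e : Nonempty (G ≃* H))
    (h : K G) : K H := by
  obtain ⟨e⟩ := e
  exact hsub G H e.symm.toMonoidHom e.symm.injective h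

lemma aut_congr {G H X : Type} [Group G] [Group H] [Group X] (e : Nonempty (G ≃* H))
    (h : Nonempty (MulAut H ≃* X)) : Nonempty (MulAut G ≃* X) := by
  obtain ⟨e⟩ := e
  obtain ⟨f⟩ := h
  exact ⟨(MulAut.congr e).trans f⟩

lemma iso_symm {G H : Type} [Group G] [Group H] (e : Nonempty (G ≃* H)) : Nonempty (H ≃* G) := by
  obtain ⟨e⟩ := e
  exact ⟨e.symm⟩

theorem aut_closed_of_impl
    (hsub : ∀ (G H : Type) [Group G] [Group H] (f : H →* G), Function.Injective f → K G → K H)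
    (hquo : ∀ (G Q : Type) [Group G] [Group Q] (f : G →* Q), Function.Surjective f → K G → K Q)
    (h : Impl K) (G : Type) [Group G] (hG : K G) (hL : FinList G) : K (MulAut G) := by
  obtain ⟨⟨hcyc, hV, h24, h26⟩, ⟨hA4, hQ8, hA5⟩, hHol, hHol2⟩ := h
  have cyc : ∀ (G : Type) [Group G] [Finite G], K G → IsCyclic G → K (MulAut G) := by
    intro G _ _ hG hc
    have h1 : Nonempty (G ≃* Cy (Nat.card G)) :=
      ⟨mulEquivOfCyclicCardEq (card_cy _).symm⟩
    have h2 : K (ZMod (Nat.card G))ˣ := hcyc _ Nat.card_pos.ne' (iso_mem hsub h1 hG)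
    exact iso_mem hsub (iso_symm (cyc_aut hc rfl)) h2
  rcases hL with ⟨hfin, h⟩ | h | h | h
  · haveI := hfin
    rcases h with ⟨h1, -⟩ | h | h | ⟨f, hf⟩ | h | h | h
    · exact cyc G hG h1
    · exact iso_mem hsub (iso_symm (aut_congr h aut_c24)) (h24 (iso_mem hsub h hG))
    · exact iso_mem hsub (iso_symm (aut_congr h aut_c26)) (h26 (iso_mem hsub h hG))
    · rcases sub_s4 f hf with h | h | h | h | h | h
      · exact cyc G hG h
      · exact iso_mem hsub (iso_symm (aut_congr h aut_c22)) (hV (iso_mem hsub h hG))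
      · exact iso_mem hsub (iso_symm (aut_congr h aut_s3)) (iso_mem hsub h hG)
      · exact iso_mem hsub (iso_symm (aut_congr h aut_d8)) (iso_mem hsub h hG)
      · exact iso_mem hsub (iso_symm (aut_congr h aut_a4)) (hA4 (iso_mem hsub h hG))
      · exact iso_mem hsub (iso_symm (aut_congr h aut_s4)) (iso_mem hsub h hG)
    · exact iso_mem hsub (iso_symm (aut_congr h aut_q8)) (hQ8 (iso_mem hsub h hG))
    · obtain ⟨f, hf⟩ := bintet_q8 h
      obtain ⟨g, hg⟩ := bintet_aut h
      exact hsub _ _ g hg (hQ8 (hsub _ _ f hf hG))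
    · obtain ⟨q, c, d, N, H, hM⟩ := h
      have hM' : MData G q c d N H := hM
      have hq : q.Prime := hM.1
      obtain ⟨A, f, hA, hf⟩ := meta_quo hM'
      have hKH : K (Hol (Cy q)) := hHol q hq A hA (hquo _ _ f hf hG)
      have hP : Params q c d := hM.2.2.2.2.2.2.2.2.1
      by_cases hPA : PA c d
      · obtain ⟨g, hg⟩ := meta_autA hM' hPA
        exact hsub _ _ g hg hKH
      · have hPB : PB q c d := by
          unfold PA at hPA
          push Not at hPA
          rcases hP with ⟨h1, -⟩ | ⟨h1, -, h2⟩ | ⟨h1, h2⟩ | h | h | h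
          · exact absurd h1 hPA.1
          · exact absurd h2 (hPA.2 h1)
          · exact Or.inl ⟨h1, by have := hPA.2 h1; omega, h2⟩
          · exact Or.inr (Or.inl h)
          · exact Or.inr (Or.inr (Or.inl h))
          · exact Or.inr (Or.inr (Or.inr h))
        have hq7 : q = 3 ∨ q = 5 ∨ q = 7 := by
          rcases hPB with ⟨-, -, h⟩ | ⟨h, -⟩ | ⟨h, -⟩ | ⟨h, -⟩
          · exact h
          · exact Or.inr (Or.inr h)
          · exact Or.inr (Or.inl h)
          · exact Or.inr (Or.inr h)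
        have hX : K (DihedralGroup (2 * q)) ∨ K (QuaternionGroup q) ∨
            K (Cy 3 × DihedralGroup q) ∨
            (q = 7 ∧ ∃ A : Subgroup (Hol (Cy 7)), NonAb A ∧ K (Cy 4 × A)) := by
          rcases meta_sub hM' hPB with ⟨f, hf⟩ | ⟨f, hf⟩ | ⟨f, hf⟩ | ⟨hq, A, f, hA, hf⟩
          · exact Or.inl (hsub _ _ f hf hG)
          · exact Or.inr (Or.inl (hsub _ _ f hf hG))
          · exact Or.inr (Or.inr (Or.inl (hsub _ _ f hf hG)))
          · exact Or.inr (Or.inr (Or.inr ⟨hq, A, hA, hsub _ _ f hf hG⟩))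
        obtain ⟨g, hg⟩ := meta_autB hM'
        exact hsub _ _ g hg (hHol2 q hq7 hX)
  · exact iso_mem hsub (iso_symm (aut_congr h aut_a5_iso)) (hA5 (iso_mem hsub h hG))
  · exact iso_mem hsub (iso_symm (aut_congr h aut_s5_iso)) (iso_mem hsub h hG)
  · obtain ⟨g, hg⟩ := aut_bi_emb h
    obtain ⟨π, hπ, -⟩ := h
    exact hsub _ _ g hg (hA5 (hquo _ _ π hπ hG))

theorem impl_of_aut_closed
    (hsub : ∀ (G H : Type) [Group G] [Group H] (f : H →* G), Function.Injective f → K G → K H)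
    (haut : ∀ (G : Type) [Group G], K G → K (MulAut G)) : Impl K := by
  refine ⟨⟨fun n hn h => ?_, fun h => iso_mem hsub aut_c22 (haut _ h),
    fun h => iso_mem hsub aut_c24 (haut _ h), fun h => iso_mem hsub aut_c26 (haut _ h)⟩,
    ⟨fun h => iso_mem hsub aut_a4 (haut _ h), fun h => iso_mem hsub aut_q8 (haut _ h),
    fun h => iso_mem hsub aut_a5_iso (haut _ h)⟩, fun q hq A hA h => ?_, fun q hq h => ?_⟩
  · haveI : NeZero n := ⟨hn⟩
    have hc : IsCyclic (Cy n) := inferInstance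
    exact iso_mem hsub (cyc_aut hc (card_cy n)) (haut _ h)
  · obtain ⟨f, hf⟩ := hol_embeds hq A hA
    exact hsub _ _ f hf (haut _ h)
  · have hqp : q.Prime ∧ q ≠ 2 := by
      rcases hq with rfl | rfl | rfl <;> norm_num
    rcases h with h | h | h | ⟨rfl, A, hA, h⟩
    · obtain ⟨f, hf⟩ := hol2_dih hqp.1 hqp.2
      exact hsub _ _ f hf (haut _ h)
    · obtain ⟨f, hf⟩ := hol2_quat hqp.1 hqp.2
      exact hsub _ _ f hf (haut _ h)
    · obtain ⟨f, hf⟩ := hol2_prod hqp.1 hqp.2
      exact hsub _ _ f hf (haut _ h)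
    · obtain ⟨f, hf⟩ := hol2_prod4 hqp.1 A hA
      exact hsub _ _ f hf (haut _ h)

end Pool.Agent.SHAJ
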